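import Mathlib

set_option autoImplicit false

/-!
# Covering residues by the boundary of a square

Number theoretic core: if every residue modulo `n` has the form `(x W + y) / 2` with `(x, y)` a
pair of odd integers on the boundary of the square `[-h, h]²` (`h`, `W` odd), and `n ≥ 2 h + 2`,
then `n` is odd and `n ≤ 3 h`.
-/

namespace Pool.Agent.H208.SS

theorem dz {m c : ℤ} (hd : m ∣ c) (h1 : -m < c) (h2 : c < m) : c = 0 :=
  Int.eq_zero_of_abs_lt_dvd hd (abs_lt.2 ⟨h1, h2⟩)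

/-- every residue modulo `n` is `(x W + y) / 2` for odd `x, y` on the boundary of the square -/
def Cover (h n W : ℤ) : Prop :=
  ∀ z : ℤ, ∃ x y : ℤ, -h ≤ x ∧ x ≤ h ∧ -h ≤ y ∧ y ≤ h ∧
    (x = h ∨ x = -h ∨ y = h ∨ y = -h) ∧ x % 2 = 1 ∧ y % 2 = 1 ∧ 2 * n ∣ x * W + y - 2 * z

theorem Cover.neg {h n W : ℤ} (hc : Cover h n W) : Cover h n (-W) := by
  intro z
  obtain ⟨x, y, h1, h2, h3, h4, h5, h6, h7, h8⟩ := hc z
  refine ⟨-x, y, by omega, by omega, h3, h4, by omega, by omega, h7, ?_⟩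
  obtain ⟨k, hk⟩ := h8
  exact ⟨k, by linear_combination hk⟩

theorem Cover.inv {h n W E : ℤ} (hc : Cover h n W) (hE : 2 * n ∣ E * W - 1) : Cover h n E := by
  intro z
  obtain ⟨x, y, h1, h2, h3, h4, h5, h6, h7, h8⟩ := hc (W * z)
  refine ⟨y, x, h3, h4, h1, h2, by omega, h7, h6, ?_⟩
  obtain ⟨k, hk⟩ := h8
  obtain ⟨l, hl⟩ := hE
  exact ⟨k * E - l * x + 2 * l * z, by linear_combination E * hk - (x - 2 * z) * hl⟩

theorem Cover.val {h n W : ℤ} (hc : Cover h n W) (V : ℤ) (hV : V % 2 = 0) :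
    (∃ y, -h ≤ y ∧ y ≤ h ∧ y % 2 = 1 ∧ (2 * n ∣ h * W + y - V ∨ 2 * n ∣ -(h * W) + y - V)) ∨
    (∃ x, -h ≤ x ∧ x ≤ h ∧ x % 2 = 1 ∧ (2 * n ∣ x * W + h - V ∨ 2 * n ∣ x * W - h - V)) := by
  obtain ⟨x, y, h1, h2, h3, h4, h5, h6, h7, h8⟩ := hc (V / 2)
  have e : 2 * (V / 2) = V := by omega
  rw [e] at h8
  rcases h5 with h5 | h5 | h5 | h5
  · subst h5
    exact Or.inl ⟨y, h3, h4, h7, Or.inl h8⟩
  · subst h5
    refine Or.inl ⟨y, h3, h4, h7, Or.inr ?_⟩
    obtain ⟨k, hk⟩ := h8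
    exact ⟨k, by linear_combination hk⟩
  · subst h5
    exact Or.inr ⟨x, h1, h2, h6, Or.inl h8⟩
  · subst h5
    refine Or.inr ⟨x, h1, h2, h6, Or.inr ?_⟩
    obtain ⟨k, hk⟩ := h8
    exact ⟨k, by linear_combination hk⟩

/-- values, when `0` is represented on a vertical side -/
theorem Cover.valA {h n W t : ℤ} (hc : Cover h n W) (ht : 0 ≤ t) (hA : 2 * n ∣ h * W + t)
    (V : ℤ) (hV : V % 2 = 0) :
    (∃ r, -(h + t) ≤ r ∧ r ≤ h + t ∧ 2 * n ∣ V - r) ∨
    (∃ x, -h ≤ x ∧ x ≤ h ∧ x % 2 = 1 ∧ (2 * n ∣ x * W + h - V ∨ 2 * n ∣ x * W - h - V)) := by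
  rcases hc.val V hV with ⟨y, h1, h2, -, h3 | h3⟩ | h3
  · left
    refine ⟨y - t, by omega, by omega, ?_⟩
    obtain ⟨k, hk⟩ := h3
    obtain ⟨l, hl⟩ := hA
    exact ⟨l - k, by linear_combination hl - hk⟩
  · left
    refine ⟨y + t, by omega, by omega, ?_⟩
    obtain ⟨k, hk⟩ := h3
    obtain ⟨l, hl⟩ := hA
    exact ⟨-l - k, by linear_combination -hl - hk⟩
  · exact Or.inr h3

/-- values in the middle range must come from the horizontal sides -/
theorem Cover.valB {h n W t : ℤ} (hc : Cover h n W) (ht : 0 ≤ t) (hA : 2 * n ∣ h * W + t)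
    (V : ℤ) (hV : V % 2 = 0) (h1 : h + t < V) (h2 : V < 2 * n - (h + t)) :
    ∃ x, -h ≤ x ∧ x ≤ h ∧ x % 2 = 1 ∧ (2 * n ∣ x * W + h - V ∨ 2 * n ∣ x * W - h - V) := by
  rcases hc.valA ht hA V hV with ⟨r, h3, h4, h5⟩ | h3
  · exfalso
    have := dz h5 (by omega) (by omega)
    omega
  · exact h3

theorem cancel {n W c : ℤ} (hu : IsCoprime W (2 * n)) (h : 2 * n ∣ c * W) : 2 * n ∣ c :=
  hu.symm.dvd_of_dvd_mul_right h

theorem cancel_n {n W c : ℤ} (hu : IsCoprime W (2 * n)) (hW : W % 2 = 1)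
    (h : 2 * n ∣ c * W - n) : 2 * n ∣ c - n := by
  apply cancel hu
  obtain ⟨k, hk⟩ := h
  obtain ⟨w, hw⟩ : ∃ w, W = 2 * w + 1 := ⟨W / 2, by omega⟩
  exact ⟨k - w, by linear_combination hk - n * hw⟩

theorem dvd_one_of_odd {d : ℤ} {k : ℕ} (hd : d % 2 = 1) (h : d ∣ 2 ^ k) : d ∣ 1 := by
  have hc : IsCoprime d 2 := ⟨1, -(d / 2), by omega⟩
  have := (hc.pow_right (n := k))
  exact this.dvd_of_dvd_mul_left (by rwa [mul_one])

theorem odd_of_dvd_odd {d W : ℤ} (hW : W % 2 = 1) (h : d ∣ W) : d % 2 = 1 := by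
  obtain ⟨k, hk⟩ := h
  rcases Int.emod_two_eq_zero_or_one d with h0 | h0
  · exfalso
    rw [hk, Int.mul_emod, h0] at hW
    simp at hW
  · exact h0

theorem coprime_of {n W : ℤ} (hW : W % 2 = 1)
    (h : ∀ d : ℤ, d ∣ W → d ∣ 2 * n → d % 2 = 1 → d ∣ 1) : IsCoprime W (2 * n) := by
  rw [Int.isCoprime_iff_gcd_eq_one]
  have h1 : ((Int.gcd W (2 * n) : ℕ) : ℤ) ∣ W := Int.gcd_dvd_left ..
  have h2 : ((Int.gcd W (2 * n) : ℕ) : ℤ) ∣ 2 * n := Int.gcd_dvd_right ..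
  have h3 := h _ h1 h2 (odd_of_dvd_odd hW h1)
  have h4 := Int.eq_one_of_dvd_one (by positivity) h3
  exact_mod_cast h4

/-- `W` is a unit, case of a vertical representation of `0` -/
theorem unitA {h n W t : ℤ} (hh : h % 2 = 1) (hW : W % 2 = 1) (ht : 0 ≤ t) (ht1 : t % 2 = 1)
    (hc : Cover h n W) (hA : 2 * n ∣ h * W + t) (hn : h + t + 2 < n) (h0 : 0 ≤ h) :
    IsCoprime W (2 * n) := by
  apply coprime_of hW
  intro d h1 h2 hd
  have hdt : d ∣ t := by
    have h3 := h2.trans hA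
    have h4 : d ∣ h * W := Dvd.dvd.mul_left h1 h
    exact (dvd_add_right h4).1 h3
  obtain ⟨t', ht'⟩ := hdt
  obtain ⟨w, hw⟩ := h1
  obtain ⟨x1, -, -, -, h5⟩ := hc.valB ht hA (h + t + 2) (by omega) (by omega) (by omega)
  obtain ⟨x2, -, -, -, h6⟩ := hc.valB ht hA (h + t + 4) (by omega) (by omega) (by omega)
  rcases h5 with h5 | h5
  · have h7 : d ∣ 2 ^ 1 := by
      obtain ⟨k, hk⟩ := h2.trans h5
      exact ⟨x1 * w - k - t', by rw [pow_one]; linear_combination -hk + x1 * hw - ht'⟩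
    exact dvd_one_of_odd hd h7
  · rcases h6 with h6 | h6
    · have h7 : d ∣ 2 ^ 2 := by
        obtain ⟨k, hk⟩ := h2.trans h6
        exact ⟨x2 * w - k - t', by norm_num; linear_combination -hk + x2 * hw - ht'⟩
      exact dvd_one_of_odd hd h7
    · have h7 : d ∣ 2 ^ 1 := by
        obtain ⟨k, hk⟩ := h2.trans h5
        obtain ⟨l, hl⟩ := h2.trans h6
        exact ⟨k - l - x1 * w + x2 * w, by
          rw [pow_one]; linear_combination hk - hl - x1 * hw + x2 * hw⟩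
      exact dvd_one_of_odd hd h7

/-- `W` is a unit, case of a horizontal representation of `0` -/
theorem unitB {h n W t : ℤ} (hh : h % 2 = 1) (h0 : 1 ≤ h) (hW : W % 2 = 1)
    (hc : Cover h n W) (hB : 2 * n ∣ t * W + h) (hn : 2 * h + 2 ≤ n) :
    IsCoprime W (2 * n) := by
  apply coprime_of hW
  intro d h1 h2 hd
  have hdh : d ∣ h := by
    have h3 := h2.trans hB
    have h4 : d ∣ t * W := Dvd.dvd.mul_left h1 t
    exact (dvd_add_right h4).1 h3
  obtain ⟨h', hh'⟩ := hdh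
  obtain ⟨w, hw⟩ := h1
  have hpar : (h * W) % 2 = 1 := by rw [Int.mul_emod, hh, hW]; rfl
  rcases hc.val (h * W + h + 2) (by omega) with ⟨y1, a1, a2, -, a3 | a3⟩ | ⟨x1, -, -, -, a3⟩
  · exfalso
    have h5 : 2 * n ∣ y1 - h - 2 := by
      obtain ⟨k, hk⟩ := a3
      exact ⟨k, by linear_combination hk⟩
    have := dz h5 (by omega) (by omega)
    omega
  · rcases hc.val (h * W - h - 2) (by omega) with ⟨y2, b1, b2, -, b3 | b3⟩ | ⟨x2, -, -, -, b3⟩
    · exfalso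
      have h5 : 2 * n ∣ y2 + h + 2 := by
        obtain ⟨k, hk⟩ := b3
        exact ⟨k, by linear_combination hk⟩
      have := dz h5 (by omega) (by omega)
      omega
    · have h5 : 2 * n ∣ y1 - y2 - 2 * h - 4 + 2 * n := by
        obtain ⟨k, hk⟩ := a3
        obtain ⟨l, hl⟩ := b3
        exact ⟨k - l + 1, by linear_combination hk - hl⟩
      have h6 := dz h5 (by omega) (by omega)
      have h7 : n = 2 * h + 2 := by omega
      have h8 : d ∣ 2 ^ 2 := by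
        obtain ⟨k, hk⟩ := h2
        exact ⟨k - 4 * h', by norm_num; linear_combination hk - 2 * h7 - 4 * hh'⟩
      exact dvd_one_of_odd hd h8
    · have h8 : d ∣ 2 ^ 1 := by
        rcases b3 with b3 | b3
        · obtain ⟨k, hk⟩ := h2.trans b3
          exact ⟨k - x2 * w - 2 * h' + h * w, by
            rw [pow_one]; linear_combination hk - x2 * hw - 2 * hh' + h * hw⟩
        · obtain ⟨k, hk⟩ := h2.trans b3
          exact ⟨k - x2 * w + h * w, by
            rw [pow_one]; linear_combination hk - x2 * hw + h * hw⟩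
      exact dvd_one_of_odd hd h8
  · have h8 : d ∣ 2 ^ 1 := by
      rcases a3 with a3 | a3
      · obtain ⟨k, hk⟩ := h2.trans a3
        exact ⟨-k + x1 * w - h * w, by
          rw [pow_one]; linear_combination -hk + x1 * hw - h * hw⟩
      · obtain ⟨k, hk⟩ := h2.trans a3
        exact ⟨-k + x1 * w - h * w - 2 * h', by
          rw [pow_one]; linear_combination -hk + x1 * hw - h * hw - 2 * hh'⟩
    exact dvd_one_of_odd hd h8

/-- special case `n = 2 h + 2`, `t = h` -/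
theorem unitC {h n W : ℤ} (hh : h % 2 = 1) (hA : 2 * n ∣ h * W + h) (hn : n = 2 * h + 2) :
    IsCoprime W (2 * n) := by
  have h1 : IsCoprime (2 * n) h := by
    have c2 : IsCoprime h 2 := ⟨1, -(h / 2), by omega⟩
    have c1 : IsCoprime h (h + 1) := ⟨-1, 1, by ring⟩
    have : IsCoprime h (2 * (2 * (h + 1))) := c2.mul_right (c2.mul_right c1)
    have e : 2 * n = 2 * (2 * (h + 1)) := by rw [hn]; ring
    rw [e]
    exact this.symm
  have h2 : 2 * n ∣ W + 1 := by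
    apply h1.dvd_of_dvd_mul_right
    obtain ⟨k, hk⟩ := hA
    exact ⟨k, by linear_combination hk⟩
  obtain ⟨k, hk⟩ := h2
  exact ⟨-1, k, by linear_combination -hk⟩

end Pool.Agent.H208.SS
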