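import Mathlib
import Pool.Agent.H208.SS.Num

set_option autoImplicit false

/-!
# The covering problem for `h` of any parity

If every residue modulo `n` is `(x W + y) / 2` with `(x, y)` on the boundary of the square
`[-h, h]²`, `x ≡ y ≡ h (mod 2)`, `W` odd, and `n ≥ 2 h + 2`, then `n` is odd, `n ≤ 3 h`, and
`2 n ≤ 5 h` when `h` is even.
-/

namespace Pool.Agent.H208.SS

/-- every residue modulo `n` is `(x W + y) / 2` for `x, y ≡ h (mod 2)` on the boundary of the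
square `[-h, h]²` -/
def CoverG (h n W : ℤ) : Prop :=
  ∀ z : ℤ, ∃ x y : ℤ, -h ≤ x ∧ x ≤ h ∧ -h ≤ y ∧ y ≤ h ∧
    (x = h ∨ x = -h ∨ y = h ∨ y = -h) ∧ (x - h) % 2 = 0 ∧ (y - h) % 2 = 0 ∧
    2 * n ∣ x * W + y - 2 * z

theorem CoverG.neg {h n W : ℤ} (hc : CoverG h n W) : CoverG h n (-W) := by
  intro z
  obtain ⟨x, y, h1, h2, h3, h4, h5, h6, h7, h8⟩ := hc z
  refine ⟨-x, y, by omega, by omega, h3, h4, by omega, by omega, h7, ?_⟩
  obtain ⟨k, hk⟩ := h8
  exact ⟨k, by linear_combination hk⟩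

theorem CoverG.inv {h n W E : ℤ} (hc : CoverG h n W) (hE : 2 * n ∣ E * W - 1) :
    CoverG h n E := by
  intro z
  obtain ⟨x, y, h1, h2, h3, h4, h5, h6, h7, h8⟩ := hc (W * z)
  refine ⟨y, x, h3, h4, h1, h2, by omega, h7, h6, ?_⟩
  obtain ⟨k, hk⟩ := h8
  obtain ⟨l, hl⟩ := hE
  exact ⟨k * E - l * x + 2 * l * z, by linear_combination E * hk - (x - 2 * z) * hl⟩

theorem CoverG.val {h n W : ℤ} (hc : CoverG h n W) (V : ℤ) (hV : V % 2 = 0) :
    (∃ y, -h ≤ y ∧ y ≤ h ∧ (y - h) % 2 = 0 ∧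
      (2 * n ∣ h * W + y - V ∨ 2 * n ∣ -(h * W) + y - V)) ∨
    (∃ x, -h ≤ x ∧ x ≤ h ∧ (x - h) % 2 = 0 ∧
      (2 * n ∣ x * W + h - V ∨ 2 * n ∣ x * W - h - V)) := by
  obtain ⟨x, y, h1, h2, h3, h4, h5, h6, h7, h8⟩ := hc (V / 2)
  have e : 2 * (V / 2) = V := by omega
  rw [e] at h8
  rcases h5 with h5 | h5 | h5 | h5
  · subst h5
    exact Or.inl ⟨y, h3, h4, h7, Or.inl h8⟩
  · subst h5
    refine Or.inl ⟨y, h3, h4, h7, Or.inr ?_⟩
    obtain ⟨k, hk⟩ := h8
    exact ⟨k, by linear_combination hk⟩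
  · subst h5
    exact Or.inr ⟨x, h1, h2, h6, Or.inl h8⟩
  · subst h5
    refine Or.inr ⟨x, h1, h2, h6, Or.inr ?_⟩
    obtain ⟨k, hk⟩ := h8
    exact ⟨k, by linear_combination hk⟩

theorem CoverG.valA {h n W t : ℤ} (hc : CoverG h n W) (ht : 0 ≤ t) (hA : 2 * n ∣ h * W + t)
    (V : ℤ) (hV : V % 2 = 0) :
    (∃ r, -(h + t) ≤ r ∧ r ≤ h + t ∧ 2 * n ∣ V - r) ∨
    (∃ x, -h ≤ x ∧ x ≤ h ∧ (x - h) % 2 = 0 ∧
      (2 * n ∣ x * W + h - V ∨ 2 * n ∣ x * W - h - V)) := by
  rcases hc.val V hV with ⟨y, h1, h2, -, h3 | h3⟩ | h3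
  · left
    refine ⟨y - t, by omega, by omega, ?_⟩
    obtain ⟨k, hk⟩ := h3
    obtain ⟨l, hl⟩ := hA
    exact ⟨l - k, by linear_combination hl - hk⟩
  · left
    refine ⟨y + t, by omega, by omega, ?_⟩
    obtain ⟨k, hk⟩ := h3
    obtain ⟨l, hl⟩ := hA
    exact ⟨-l - k, by linear_combination -hl - hk⟩
  · exact Or.inr h3

theorem CoverG.valB {h n W t : ℤ} (hc : CoverG h n W) (ht : 0 ≤ t) (hh : 0 ≤ h)
    (hA : 2 * n ∣ h * W + t)
    (V : ℤ) (hV : V % 2 = 0) (h1 : h + t < V) (h2 : V < 2 * n - (h + t)) :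
    ∃ x, -h < x ∧ x < h ∧ (x - h) % 2 = 0 ∧
      (2 * n ∣ x * W + h - V ∨ 2 * n ∣ x * W - h - V) := by
  rcases hc.valA ht hA V hV with ⟨r, h3, h4, h5⟩ | ⟨x, h3, h4, h5, h6⟩
  · exfalso
    have := dz h5 (by omega) (by omega)
    omega
  · refine ⟨x, ?_, ?_, h5, h6⟩
    · rcases eq_or_lt_of_le h3 with e | e
      · exfalso
        subst e
        obtain ⟨l, hl⟩ := hA
        rcases h6 with ⟨k, hk⟩ | ⟨k, hk⟩
        · have h7 : 2 * n ∣ V - h - t := ⟨-k - l, by linear_combination -hk - hl⟩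
          have := dz h7 (by omega) (by omega)
          omega
        · have h7 : 2 * n ∣ V + h - t := ⟨-k - l, by linear_combination -hk - hl⟩
          have := dz h7 (by omega) (by omega)
          omega
      · exact e
    · rcases eq_or_lt_of_le h4 with e | e
      · exfalso
        subst e
        obtain ⟨l, hl⟩ := hA
        rcases h6 with ⟨k, hk⟩ | ⟨k, hk⟩
        · have h7 : 2 * n ∣ V - x + t := ⟨-k + l, by linear_combination -hk + hl⟩
          have := dz h7 (by omega) (by omega)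
          omega
        · have h7 : 2 * n ∣ V + x + t := ⟨-k + l, by linear_combination -hk + hl⟩
          have := dz h7 (by omega) (by omega)
          omega
      · exact e

/-- the value `a h + b t` -/
theorem CoverG.pt {h n W t : ℤ} (hc : CoverG h n W) (ht : 0 ≤ t) (hh : 0 ≤ h)
    (hA : 2 * n ∣ h * W + t) (a b : ℤ) (hV : (a * h + b * t) % 2 = 0)
    (h1 : h + t < a * h + b * t) (h2 : a * h + b * t < 2 * n - (h + t)) :
    ∃ x, -h < x ∧ x < h ∧
      (2 * n ∣ (x + b * h) * W - (a - 1) * h ∨ 2 * n ∣ (x + b * h) * W - (a + 1) * h) := by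
  obtain ⟨x, h3, h4, -, h5⟩ := hc.valB ht hh hA _ hV h1 h2
  refine ⟨x, h3, h4, ?_⟩
  obtain ⟨l, hl⟩ := hA
  rcases h5 with ⟨k, hk⟩ | ⟨k, hk⟩
  · exact Or.inl ⟨k + b * l, by linear_combination hk + b * hl⟩
  · exact Or.inr ⟨k + b * l, by linear_combination hk + b * hl⟩

theorem unitAG {h n W t : ℤ} (hW : W % 2 = 1) (ht : 0 ≤ t) (ht1 : (t - h) % 2 = 0)
    (hc : CoverG h n W) (hA : 2 * n ∣ h * W + t) (hn : h + t + 2 < n) (h0 : 0 ≤ h) :
    IsCoprime W (2 * n) := by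
  apply coprime_of hW
  intro d h1 h2 hd
  have hdt : d ∣ t := by
    have h3 := h2.trans hA
    have h4 : d ∣ h * W := Dvd.dvd.mul_left h1 h
    exact (dvd_add_right h4).1 h3
  obtain ⟨t', ht'⟩ := hdt
  obtain ⟨w, hw⟩ := h1
  obtain ⟨x1, -, -, -, h5⟩ := hc.valB ht h0 hA (h + t + 2) (by omega) (by omega) (by omega)
  obtain ⟨x2, -, -, -, h6⟩ := hc.valB ht h0 hA (h + t + 4) (by omega) (by omega) (by omega)
  rcases h5 with h5 | h5
  · have h7 : d ∣ 2 ^ 1 := by
      obtain ⟨k, hk⟩ := h2.trans h5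
      exact ⟨x1 * w - k - t', by rw [pow_one]; linear_combination -hk + x1 * hw - ht'⟩
    exact dvd_one_of_odd hd h7
  · rcases h6 with h6 | h6
    · have h7 : d ∣ 2 ^ 2 := by
        obtain ⟨k, hk⟩ := h2.trans h6
        exact ⟨x2 * w - k - t', by norm_num; linear_combination -hk + x2 * hw - ht'⟩
      exact dvd_one_of_odd hd h7
    · have h7 : d ∣ 2 ^ 1 := by
        obtain ⟨k, hk⟩ := h2.trans h5
        obtain ⟨l, hl⟩ := h2.trans h6
        exact ⟨k - l - x1 * w + x2 * w, by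
          rw [pow_one]; linear_combination hk - hl - x1 * hw + x2 * hw⟩
      exact dvd_one_of_odd hd h7

theorem unitBG {h n W t : ℤ} (h0 : 1 ≤ h) (hW : W % 2 = 1)
    (hc : CoverG h n W) (hB : 2 * n ∣ t * W + h) (hn : 2 * h + 2 ≤ n) :
    IsCoprime W (2 * n) := by
  apply coprime_of hW
  intro d h1 h2 hd
  have hdh : d ∣ h := by
    have h3 := h2.trans hB
    have h4 : d ∣ t * W := Dvd.dvd.mul_left h1 t
    exact (dvd_add_right h4).1 h3
  obtain ⟨h', hh'⟩ := hdh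
  obtain ⟨v, hv⟩ : ∃ v, W = 2 * v + 1 := ⟨W / 2, by omega⟩
  have hp1 : (h * W + h + 2) % 2 = 0 :=
    Int.emod_eq_zero_of_dvd ⟨h * v + h + 1, by linear_combination h * hv⟩
  have hp2 : (h * W - h - 2) % 2 = 0 :=
    Int.emod_eq_zero_of_dvd ⟨h * v - 1, by linear_combination h * hv⟩
  obtain ⟨w, hw⟩ := h1
  rcases hc.val (h * W + h + 2) hp1 with ⟨y1, a1, a2, -, a3 | a3⟩ | ⟨x1, -, -, -, a3⟩
  · exfalso
    have h5 : 2 * n ∣ y1 - h - 2 := by
      obtain ⟨k, hk⟩ := a3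
      exact ⟨k, by linear_combination hk⟩
    have := dz h5 (by omega) (by omega)
    omega
  · rcases hc.val (h * W - h - 2) hp2 with ⟨y2, b1, b2, -, b3 | b3⟩ | ⟨x2, -, -, -, b3⟩
    · exfalso
      have h5 : 2 * n ∣ y2 + h + 2 := by
        obtain ⟨k, hk⟩ := b3
        exact ⟨k, by linear_combination hk⟩
      have := dz h5 (by omega) (by omega)
      omega
    · have h5 : 2 * n ∣ y1 - y2 - 2 * h - 4 + 2 * n := by
        obtain ⟨k, hk⟩ := a3
        obtain ⟨l, hl⟩ := b3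
        exact ⟨k - l + 1, by linear_combination hk - hl⟩
      have h6 := dz h5 (by omega) (by omega)
      have h7 : n = 2 * h + 2 := by omega
      have h8 : d ∣ 2 ^ 2 := by
        obtain ⟨k, hk⟩ := h2
        exact ⟨k - 4 * h', by norm_num; linear_combination hk - 2 * h7 - 4 * hh'⟩
      exact dvd_one_of_odd hd h8
    · have h8 : d ∣ 2 ^ 1 := by
        rcases b3 with b3 | b3
        · obtain ⟨k, hk⟩ := h2.trans b3
          exact ⟨k - x2 * w - 2 * h' + h * w, by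
            rw [pow_one]; linear_combination hk - x2 * hw - 2 * hh' + h * hw⟩
        · obtain ⟨k, hk⟩ := h2.trans b3
          exact ⟨k - x2 * w + h * w, by
            rw [pow_one]; linear_combination hk - x2 * hw + h * hw⟩
      exact dvd_one_of_odd hd h8
  · have h8 : d ∣ 2 ^ 1 := by
      rcases a3 with a3 | a3
      · obtain ⟨k, hk⟩ := h2.trans a3
        exact ⟨-k + x1 * w - h * w, by
          rw [pow_one]; linear_combination -hk + x1 * hw - h * hw⟩
      · obtain ⟨k, hk⟩ := h2.trans a3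
        exact ⟨-k + x1 * w - h * w - 2 * h', by
          rw [pow_one]; linear_combination -hk + x1 * hw - h * hw - 2 * hh'⟩
    exact dvd_one_of_odd hd h8

theorem unitCG {h n W : ℤ} (hW : W % 2 = 1) (hA : 2 * n ∣ h * W + h) (hn : n = 2 * h + 2) :
    IsCoprime W (2 * n) := by
  have c1 : IsCoprime (h + 1) h := ⟨1, -1, by ring⟩
  have h2 : h + 1 ∣ W + 1 := by
    apply c1.dvd_of_dvd_mul_right
    obtain ⟨k, hk⟩ := hA
    exact ⟨4 * k, by rw [hn] at hk; linear_combination hk⟩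
  obtain ⟨k, hk⟩ := h2
  have c2 : IsCoprime W (h + 1) := ⟨-1, k, by linear_combination -hk⟩
  have c3 : IsCoprime W 2 := ⟨1, -(W / 2), by omega⟩
  have : IsCoprime W (2 * (2 * (h + 1))) := c3.mul_right (c3.mul_right c2)
  have e : 2 * n = 2 * (2 * (h + 1)) := by rw [hn]; ring
  rw [e]
  exact this

/-- normalisation -/
theorem normaliseG {h n W : ℤ} (h0 : 1 ≤ h) (hW : W % 2 = 1)
    (hc : CoverG h n W) (hn : 2 * h + 2 ≤ n) :
    ∃ W' t : ℤ, CoverG h n W' ∧ W' % 2 = 1 ∧ IsCoprime W' (2 * n) ∧ 1 ≤ t ∧ t ≤ h ∧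
      (t - h) % 2 = 0 ∧ 2 * n ∣ h * W' + t := by
  have unitV : ∀ V t : ℤ, CoverG h n V → V % 2 = 1 → 0 ≤ t → t ≤ h → (t - h) % 2 = 0 →
      2 * n ∣ h * V + t → IsCoprime V (2 * n) := by
    intro V t hcV hV t1 t2 t3 hd
    by_cases hb : h + t + 2 < n
    · exact unitAG hV t1 t3 hcV hd hb (by omega)
    · have e : t = h := by omega
      subst e
      exact unitCG hV hd (by omega)
  have step : ∀ V t : ℤ, CoverG h n V → V % 2 = 1 → IsCoprime V (2 * n) → -h ≤ t → t ≤ h →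
      (t - h) % 2 = 0 → 2 * n ∣ h * V + t →
      ∃ W' t : ℤ, CoverG h n W' ∧ W' % 2 = 1 ∧ IsCoprime W' (2 * n) ∧ 1 ≤ t ∧ t ≤ h ∧
        (t - h) % 2 = 0 ∧ 2 * n ∣ h * W' + t := by
    intro V t hcV hV huV t1 t2 t3 hd
    rcases lt_trichotomy t 0 with h1 | h1 | h1
    · refine ⟨-V, -t, hcV.neg, by omega, huV.neg_left, by omega, by omega, by omega, ?_⟩
      obtain ⟨k, hk⟩ := hd
      exact ⟨-k, by linear_combination -hk⟩
    · exfalso
      rw [h1, add_zero] at hd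
      have := dz (cancel huV hd) (by omega) (by omega)
      omega
    · exact ⟨V, t, hcV, hV, huV, by omega, t2, t3, hd⟩
  rcases hc.val 0 rfl with ⟨y, h1, h2, h3, h4⟩ | ⟨x, h1, h2, h3, h4⟩
  · obtain ⟨t, t1, t2, t3, hd⟩ : ∃ t, -h ≤ t ∧ t ≤ h ∧ (t - h) % 2 = 0 ∧
        2 * n ∣ h * W + t := by
      rcases h4 with h4 | h4
      · exact ⟨y, h1, h2, h3, by simpa using h4⟩
      · refine ⟨-y, by omega, by omega, by omega, ?_⟩
        obtain ⟨k, hk⟩ := h4
        exact ⟨-k, by linear_combination -hk⟩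
    have hu : IsCoprime W (2 * n) := by
      rcases le_or_gt 0 t with h5 | h5
      · exact unitV W t hc hW h5 t2 t3 hd
      · have h6 : IsCoprime (-W) (2 * n) := by
          apply unitV (-W) (-t) hc.neg (by omega) (by omega) (by omega) (by omega)
          obtain ⟨k, hk⟩ := hd
          exact ⟨-k, by linear_combination -hk⟩
        simpa using h6.neg_left
    exact step W t hc hW hu t1 t2 t3 hd
  · obtain ⟨t, t1, t2, t3, hd⟩ : ∃ t, -h ≤ t ∧ t ≤ h ∧ (t - h) % 2 = 0 ∧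
        2 * n ∣ t * W + h := by
      rcases h4 with h4 | h4
      · exact ⟨x, h1, h2, h3, by simpa using h4⟩
      · refine ⟨-x, by omega, by omega, by omega, ?_⟩
        obtain ⟨k, hk⟩ := h4
        exact ⟨-k, by linear_combination -hk⟩
    have hu : IsCoprime W (2 * n) := unitBG h0 hW hc hd hn
    obtain ⟨E, F, hEF⟩ := hu
    have hE : 2 * n ∣ E * W - 1 := ⟨-F, by linear_combination hEF⟩
    have hEodd : E % 2 = 1 := by
      obtain ⟨k, hk⟩ := hE
      rcases Int.emod_two_eq_zero_or_one E with h0' | h0'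
      · exfalso
        obtain ⟨e, he⟩ : ∃ e, E = 2 * e := ⟨E / 2, by omega⟩
        have : 2 * (e * W - n * k) = 1 := by
          rw [he] at hk
          linear_combination hk
        omega
      · exact h0'
    have hcE := hc.inv hE
    have huE : IsCoprime E (2 * n) := ⟨W, F, by linear_combination hEF⟩
    refine step E t hcE hEodd huE t1 t2 t3 ?_
    obtain ⟨k, hk⟩ := hd
    obtain ⟨l, hl⟩ := hE
    exact ⟨E * k - t * l, by linear_combination E * hk - t * hl⟩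

end Pool.Agent.H208.SS
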