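import Mathlib
import Pool.Agent.H208.SS.Gen

set_option autoImplicit false

namespace Pool.Agent.H208.SS

/-- the case of even `n` is impossible -/
theorem even_falseG {h n W t : ℤ} (hW : W % 2 = 1) (hc : CoverG h n W)
    (hu : IsCoprime W (2 * n)) (ht0 : 1 ≤ t) (hth : t ≤ h) (ht1 : (t - h) % 2 = 0)
    (hA : 2 * n ∣ h * W + t) (hn : 2 * h + 2 ≤ n) (hne : n % 2 = 0) : False := by
  -- the representation of `n / 2`
  obtain ⟨s, hs1, hs2, hs3, hB⟩ : ∃ s, -h ≤ s ∧ s ≤ h ∧ (s - h) % 2 = 0 ∧
      2 * n ∣ s * W + h - n := by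
    obtain ⟨x, h1, h2, h3, h4 | h4⟩ := hc.valB (by omega) (by omega) hA n hne (by omega) (by omega)
    · exact ⟨x, h1.le, h2.le, h3, h4⟩
    · refine ⟨-x, by omega, by omega, by omega, ?_⟩
      obtain ⟨k, hk⟩ := h4
      exact ⟨-k - 1, by linear_combination -hk⟩
  -- `t < h`
  have htlt : t < h := by
    by_contra hcon
    have e : t = h := by omega
    subst e
    have h1 : 2 * n ∣ (s - t) * W - n := by
      obtain ⟨k, hk⟩ := hB
      obtain ⟨l, hl⟩ := hA
      exact ⟨k - l, by linear_combination hk - hl⟩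
    have h2 := cancel_n hu hW h1
    have := dz h2 (by omega) (by omega)
    omega
  rcases le_or_gt 0 s with hs | hs
  · -- nonnegative `s`
    obtain ⟨x, h1, h2, h3, h4 | h4⟩ := hc.valB (by omega) (by omega) hA (n + h - t) (by omega)
      (by omega) (by omega)
    · have h5 : 2 * n ∣ (x - h) * W - n := by
        obtain ⟨k, hk⟩ := h4
        obtain ⟨l, hl⟩ := hA
        exact ⟨k - l, by linear_combination hk - hl⟩
      have h6 := cancel_n hu hW h5
      have := dz h6 (by omega) (by omega)
      omega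
    · have h5 : 2 * n ∣ (x + 2 * s - h) * W - n := by
        obtain ⟨k, hk⟩ := h4
        obtain ⟨l, hl⟩ := hA
        obtain ⟨m, hm⟩ := hB
        exact ⟨k - l + 2 * m + 1, by linear_combination hk - hl + 2 * hm⟩
      have h6 := cancel_n hu hW h5
      have := dz h6 (by omega) (by omega)
      omega
  · -- negative `s`: the walk
    have claim : ∀ j : ℤ, j % 2 = 0 → -(n - h + s) ≤ j → j ≤ n - h + s →
        ∃ r, -(h + t) ≤ r ∧ r ≤ h + t ∧ 2 * n ∣ j * W - r := by
      intro j hj0 hj1 hj2
      have hend : 2 * n ∣ (n - h + s) * W - (t - h) := by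
        obtain ⟨w, hw⟩ : ∃ w, W = 2 * w + 1 := ⟨W / 2, by omega⟩
        obtain ⟨l, hl⟩ := hA
        obtain ⟨m, hm⟩ := hB
        exact ⟨m - l + w + 1, by linear_combination hm - hl + n * hw⟩
      by_cases e1 : j = n - h + s
      · subst e1
        exact ⟨t - h, by omega, by omega, hend⟩
      by_cases e2 : j = -(n - h + s)
      · subst e2
        refine ⟨h - t, by omega, by omega, ?_⟩
        obtain ⟨k, hk⟩ := hend
        exact ⟨-k, by linear_combination -hk⟩
      have hpar : (j * W) % 2 = 0 := by rw [Int.mul_emod, hj0]; simp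
      rcases hc.valA (by omega) hA (j * W) hpar with h1 | ⟨x, h1, h2, -, h4 | h4⟩
      · exact h1
      · exfalso
        have h5 : 2 * n ∣ (x - s - j) * W - n := by
          obtain ⟨k, hk⟩ := h4
          obtain ⟨m, hm⟩ := hB
          exact ⟨k - m - 1, by linear_combination hk - hm⟩
        have h6 := cancel_n hu hW h5
        have := dz h6 (by omega) (by omega)
        omega
      · exfalso
        have h5 : 2 * n ∣ (x + s - j) * W - n := by
          obtain ⟨k, hk⟩ := h4
          obtain ⟨m, hm⟩ := hB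
          exact ⟨k + m, by linear_combination hk + hm⟩
        have h6 := cancel_n hu hW h5
        have := dz h6 (by omega) (by omega)
        omega
    have walk : ∀ m : ℕ, ∃ j p : ℤ, j % 2 = 0 ∧ -(n - h + s) ≤ j ∧ j ≤ n - h + s ∧
        (m : ℤ) ≤ p ∧ p ≤ h + t ∧ 2 * n ∣ j * W - p := by
      intro m
      induction m with
      | zero =>
        exact ⟨0, 0, rfl, by omega, by omega, by simp, by omega, by simp⟩
      | succ m ih =>
        obtain ⟨j, p, hj0, hj1, hj2, hp1, hp2, hd⟩ := ih
        have hm0 : (0 : ℤ) ≤ m := Int.natCast_nonneg m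
        obtain ⟨w, hw⟩ : ∃ w, W = 2 * w + 1 := ⟨W / 2, by omega⟩
        obtain ⟨k, hk⟩ := hd
        obtain ⟨l, hl⟩ := hA
        obtain ⟨q, hq⟩ := hB
        obtain ⟨j', p', hj0', hj1', hj2', hp1', hp2', hd'⟩ : ∃ j' p' : ℤ, j' % 2 = 0 ∧
            -(n - h + s) ≤ j' ∧ j' ≤ n - h + s ∧ p + 1 ≤ p' ∧ p' ≤ n ∧ 2 * n ∣ j' * W - p' := by
          rcases le_or_gt 0 j with hj | hj
          · refine ⟨j - (n - h + s), p + (h - t), by omega, by omega, by omega, by omega,
              by omega, ?_⟩
            exact ⟨k - (q - l + w + 1), by linear_combination hk - (hq - hl + n * hw)⟩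
          · refine ⟨j + (h + s), p + (n - h - t), by omega, by omega, by omega, by omega,
              by omega, ?_⟩
            exact ⟨k + q + l, by linear_combination hk + hq + hl⟩
        obtain ⟨r, hr1, hr2, hr3⟩ := claim j' hj0' hj1' hj2'
        have hpr : 2 * n ∣ p' - r := by
          obtain ⟨a, ha⟩ := hr3
          obtain ⟨b, hb⟩ := hd'
          exact ⟨a - b, by linear_combination ha - hb⟩
        have e := dz hpr (by omega) (by omega)
        exact ⟨j', p', hj0', hj1', hj2', by push_cast; omega, by omega, hd'⟩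
    obtain ⟨j, p, -, -, -, h1, h2, -⟩ := walk (h + t + 1).toNat
    omega

/-- `n > 3 h` is impossible -/
theorem odd_falseG {h n W t : ℤ} (hc : CoverG h n W)
    (hu : IsCoprime W (2 * n)) (ht0 : 1 ≤ t) (hth : t ≤ h) (ht1 : (t - h) % 2 = 0)
    (hA : 2 * n ∣ h * W + t) (hn : 3 * h + 1 ≤ n) : False := by
  obtain ⟨l, hl⟩ := hA
  have hA : 2 * n ∣ h * W + t := ⟨l, hl⟩
  obtain ⟨x1, a1, a2, k1, hk1⟩ : ∃ x1, -h < x1 ∧ x1 < h ∧
      2 * n ∣ (x1 + 3 * h) * W - (1 + 1) * h := by
    obtain ⟨x, h1, h2, h4 | h4⟩ := hc.pt (by omega) (by omega) hA 1 3 (by omega) (by omega)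
      (by omega)
    · exfalso
      have h5 : 2 * n ∣ (x + 3 * h) * W := by
        obtain ⟨k, hk⟩ := h4
        exact ⟨k, by linear_combination hk⟩
      have := dz (cancel hu h5) (by omega) (by omega)
      omega
    · exact ⟨x, h1, h2, h4⟩
  obtain ⟨x2, b1, b2, hb⟩ : ∃ x2, -h < x2 ∧ x2 < h ∧ 2 * x1 + 5 * h - x2 = 2 * n := by
    obtain ⟨x, h1, h2, h4 | h4⟩ := hc.pt (by omega) (by omega) hA 3 1 (by omega) (by omega)
      (by omega)
    · exfalso
      have h5 : 2 * n ∣ (x - x1 - 2 * h) * W := by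
        obtain ⟨k, hk⟩ := h4
        exact ⟨k - k1, by linear_combination hk - hk1⟩
      have := dz (cancel hu h5) (by omega) (by omega)
      omega
    · refine ⟨x, h1, h2, ?_⟩
      have h5 : 2 * n ∣ (2 * x1 + 5 * h - x) * W := by
        obtain ⟨k, hk⟩ := h4
        exact ⟨2 * k1 - k, by linear_combination 2 * hk1 - hk⟩
      have := dz (m := 2 * n) (c := 2 * x1 + 5 * h - x - 2 * n) (by
        obtain ⟨k, hk⟩ := cancel hu h5
        exact ⟨k - 1, by linear_combination hk⟩) (by omega) (by omega)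
      omega
  rcases le_or_gt (h + 1) (2 * t) with ht2 | ht2
  · obtain ⟨x, h1, h2, h4 | h4⟩ := hc.pt (by omega) (by omega) hA (-1) 5 (by omega) (by omega)
      (by omega)
    · have h5 : 2 * n ∣ (x + x1 + 8 * h) * W := by
        obtain ⟨k, hk⟩ := h4
        exact ⟨k + k1, by linear_combination hk + hk1⟩
      have := dz (m := 2 * n) (c := x + x1 + 8 * h - 2 * n) (by
        obtain ⟨k, hk⟩ := cancel hu h5
        exact ⟨k - 1, by linear_combination hk⟩) (by omega) (by omega)
      omega
    · have h5 : 2 * n ∣ (x + 5 * h) * W := by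
        obtain ⟨k, hk⟩ := h4
        exact ⟨k, by linear_combination hk⟩
      have := dz (cancel hu h5) (by omega) (by omega)
      omega
  · obtain ⟨x, h1, h2, h4 | h4⟩ := hc.pt (by omega) (by omega) hA 1 5 (by omega) (by omega)
      (by omega)
    · have h5 : 2 * n ∣ (x + 5 * h) * W := by
        obtain ⟨k, hk⟩ := h4
        exact ⟨k, by linear_combination hk⟩
      have := dz (cancel hu h5) (by omega) (by omega)
      omega
    · have h5 : 2 * n ∣ (x - x1 + 2 * h) * W := by
        obtain ⟨k, hk⟩ := h4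
        exact ⟨k - k1, by linear_combination hk - hk1⟩
      have := dz (cancel hu h5) (by omega) (by omega)
      omega

/-- `2 n > 5 h` is impossible for even `h` -/
theorem five_false {h n W t : ℤ} (hh : h % 2 = 0) (hc : CoverG h n W)
    (hu : IsCoprime W (2 * n)) (ht0 : 1 ≤ t) (hth : t ≤ h) (ht1 : t % 2 = 0)
    (hA : 2 * n ∣ h * W + t) (hn : 5 * h < 2 * n) (hn3 : n ≤ 3 * h) : False := by
  -- step 1: `y W ≡ 2 h`
  obtain ⟨y, y1, y2, k1, hk1⟩ : ∃ y, h < y ∧ y < 3 * h ∧ 2 * n ∣ y * W - 2 * h := by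
    obtain ⟨x, h1, h2, h4 | h4⟩ := hc.pt (by omega) (by omega) hA 1 2 (by omega) (by omega)
      (by omega)
    · exfalso
      have h5 : 2 * n ∣ (x + 2 * h) * W := by
        obtain ⟨k, hk⟩ := h4
        exact ⟨k, by linear_combination hk⟩
      have := dz (cancel hu h5) (by omega) (by omega)
      omega
    · refine ⟨x + 2 * h, by omega, by omega, ?_⟩
      obtain ⟨k, hk⟩ := h4
      exact ⟨k, by linear_combination hk⟩
  have htlt : t < h := by
    by_contra hcon
    have e : t = h := by omega
    subst e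
    have h5 : 2 * n ∣ (y + 2 * t) * W := by
      obtain ⟨l, hl⟩ := hA
      exact ⟨k1 + 2 * l, by linear_combination hk1 + 2 * hl⟩
    have := dz (cancel hu h5) (by omega) (by omega)
    omega
  -- step 2: `2 y = 2 n + x2`
  obtain ⟨x2, b1, b2, hb⟩ : ∃ x2, -h < x2 ∧ x2 < h ∧ 2 * y - x2 = 2 * n := by
    obtain ⟨x, h1, h2, h4 | h4⟩ := hc.pt (by omega) (by omega) hA 3 0 (by omega) (by omega)
      (by omega)
    · exfalso
      have h5 : 2 * n ∣ (y - x) * W := by
        obtain ⟨k, hk⟩ := h4
        exact ⟨k1 - k, by linear_combination hk1 - hk⟩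
      have := dz (cancel hu h5) (by omega) (by omega)
      omega
    · refine ⟨x, h1, h2, ?_⟩
      have h5 : 2 * n ∣ (2 * y - x) * W := by
        obtain ⟨k, hk⟩ := h4
        exact ⟨2 * k1 - k, by linear_combination 2 * hk1 - hk⟩
      have := dz (m := 2 * n) (c := 2 * y - x - 2 * n) (by
        obtain ⟨k, hk⟩ := cancel hu h5
        exact ⟨k - 1, by linear_combination hk⟩) (by omega) (by omega)
      omega
  -- step 3: `2 y < 2 n`
  have hy3 : 2 * y < 2 * n := by
    obtain ⟨x, h1, h2, h4 | h4⟩ := hc.pt (by omega) (by omega) hA 3 (-1) (by omega) (by omega)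
      (by omega)
    · exfalso
      have h5 : 2 * n ∣ (y - x + h) * W := by
        obtain ⟨k, hk⟩ := h4
        exact ⟨k1 - k, by linear_combination hk1 - hk⟩
      have := dz (cancel hu h5) (by omega) (by omega)
      omega
    · have h5 : 2 * n ∣ (2 * y - x + h) * W := by
        obtain ⟨k, hk⟩ := h4
        exact ⟨2 * k1 - k, by linear_combination 2 * hk1 - hk⟩
      have := dz (m := 2 * n) (c := 2 * y - x + h - 2 * n) (by
        obtain ⟨k, hk⟩ := cancel hu h5
        exact ⟨k - 1, by linear_combination hk⟩) (by omega) (by omega)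
      omega
  -- step 4: `x4 W ≡ 3 h`, `3 y - 2 x4 = 2 n`
  obtain ⟨x4, c1, c2, hc4, k4, hk4⟩ : ∃ x4, -h < x4 ∧ x4 < h ∧ 3 * y - 2 * x4 = 2 * n ∧
      2 * n ∣ x4 * W - 3 * h := by
    obtain ⟨x, h1, h2, h4 | h4⟩ := hc.pt (by omega) (by omega) hA 2 0 (by omega) (by omega)
      (by omega)
    · exfalso
      have h5 : 2 * n ∣ (y - 2 * x) * W := by
        obtain ⟨k, hk⟩ := h4
        exact ⟨k1 - 2 * k, by linear_combination hk1 - 2 * hk⟩
      have := dz (cancel hu h5) (by omega) (by omega)
      omega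
    · refine ⟨x, h1, h2, ?_, ?_⟩
      · have h5 : 2 * n ∣ (3 * y - 2 * x) * W := by
          obtain ⟨k, hk⟩ := h4
          exact ⟨3 * k1 - 2 * k, by linear_combination 3 * hk1 - 2 * hk⟩
        have := dz (m := 2 * n) (c := 3 * y - 2 * x - 2 * n) (by
          obtain ⟨k, hk⟩ := cancel hu h5
          exact ⟨k - 1, by linear_combination hk⟩) (by omega) (by omega)
        omega
      · obtain ⟨k, hk⟩ := h4
        exact ⟨k, by linear_combination hk⟩
  -- the point `z` with `z W ≡ -h`
  obtain ⟨z, hz⟩ : ∃ z, z = y - x4 := ⟨_, rfl⟩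
  have hzk : z * W + h = 2 * n * (k1 - k4) := by
    rw [hz]; linear_combination hk1 - hk4
  -- step 5
  have h5 : x4 + y + 2 * h > 2 * n := by
    obtain ⟨x, h1, h2, h4 | h4⟩ := hc.pt (by omega) (by omega) hA 4 (-1) (by omega) (by omega)
      (by omega)
    · exfalso
      have h5 : 2 * n ∣ (x - h - x4) * W := by
        obtain ⟨k, hk⟩ := h4
        exact ⟨k - k4, by linear_combination hk - hk4⟩
      have := dz (cancel hu h5) (by omega) (by omega)
      omega
    · have h5 : 2 * n ∣ (x4 + y - x + h) * W := by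
        obtain ⟨k, hk⟩ := h4
        exact ⟨k4 + k1 - k, by linear_combination hk4 + hk1 - hk⟩
      have := dz (m := 2 * n) (c := x4 + y - x + h - 2 * n) (by
        obtain ⟨k, hk⟩ := cancel hu h5
        exact ⟨k - 1, by linear_combination hk⟩) (by omega) (by omega)
      omega
  rcases le_or_gt (3 * t) (2 * h) with ht3 | ht3
  · rcases le_or_gt (2 * t) h with ht2 | ht2
    · -- `2 t ≤ h`
      obtain ⟨x, h1, h2, h4 | h4⟩ := hc.pt (by omega) (by omega) hA 1 4 (by omega) (by omega)
        (by omega)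
      · have h5 : 2 * n ∣ (x + 4 * h) * W := by
          obtain ⟨k, hk⟩ := h4
          exact ⟨k, by linear_combination hk⟩
        have := dz (cancel hu h5) (by omega) (by omega)
        omega
      · have h5 : 2 * n ∣ (x + 4 * h - y) * W := by
          obtain ⟨k, hk⟩ := h4
          exact ⟨k - k1, by linear_combination hk - hk1⟩
        have := dz (cancel hu h5) (by omega) (by omega)
        omega
    · -- `h < 2 t`, `3 t ≤ 2 h`
      have h7 : z > 2 * n - 4 * h := by
        obtain ⟨x, h1, h2, h4 | h4⟩ := hc.pt (by omega) (by omega) hA 0 3 (by omega) (by omega)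
          (by omega)
        · exfalso
          have h5 : 2 * n ∣ (x + 3 * h - z) * W := by
            obtain ⟨k, hk⟩ := h4
            exact ⟨k - (k1 - k4), by linear_combination hk - hzk⟩
          have := dz (cancel hu h5) (by omega) (by omega)
          omega
        · have h5 : 2 * n ∣ (x + 3 * h + z) * W := by
            obtain ⟨k, hk⟩ := h4
            exact ⟨k + (k1 - k4), by linear_combination hk + hzk⟩
          have := dz (m := 2 * n) (c := x + 3 * h + z - 2 * n) (by
            obtain ⟨k, hk⟩ := cancel hu h5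
            exact ⟨k - 1, by linear_combination hk⟩) (by omega) (by omega)
          omega
      obtain ⟨x, h1, h2, h4 | h4⟩ := hc.pt (by omega) (by omega) hA 0 5 (by omega) (by omega)
        (by omega)
      · have h5 : 2 * n ∣ (x + 5 * h - z) * W := by
          obtain ⟨k, hk⟩ := h4
          exact ⟨k - (k1 - k4), by linear_combination hk - hzk⟩
        have := dz (cancel hu h5) (by omega) (by omega)
        omega
      · have h5 : 2 * n ∣ (x + 5 * h + z) * W := by
          obtain ⟨k, hk⟩ := h4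
          exact ⟨k + (k1 - k4), by linear_combination hk + hzk⟩
        have := dz (m := 2 * n) (c := x + 5 * h + z - 2 * n) (by
          obtain ⟨k, hk⟩ := cancel hu h5
          exact ⟨k - 1, by linear_combination hk⟩) (by omega) (by omega)
        omega
  · -- `3 t > 2 h`
    obtain ⟨x, h1, h2, h4 | h4⟩ := hc.pt (by omega) (by omega) hA (-1) 4 (by omega) (by omega)
      (by omega)
    · have h5 : 2 * n ∣ (x + 4 * h + y) * W := by
        obtain ⟨k, hk⟩ := h4
        exact ⟨k + k1, by linear_combination hk + hk1⟩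
      have := dz (m := 2 * n) (c := x + 4 * h + y - 2 * n) (by
        obtain ⟨k, hk⟩ := cancel hu h5
        exact ⟨k - 1, by linear_combination hk⟩) (by omega) (by omega)
      omega
    · have h5 : 2 * n ∣ (x + 4 * h) * W := by
        obtain ⟨k, hk⟩ := h4
        exact ⟨k, by linear_combination hk⟩
      have := dz (cancel hu h5) (by omega) (by omega)
      omega

/-- the bound, for all `h` -/
theorem coverG_bound {h n W : ℤ} (h0 : 1 ≤ h) (hW : W % 2 = 1)
    (hc : CoverG h n W) (hn : 2 * h + 2 ≤ n) :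
    n % 2 = 1 ∧ n ≤ 3 * h ∧ (h % 2 = 0 → 2 * n ≤ 5 * h) := by
  obtain ⟨W', t, hc', hW', hu, t1, t2, t3, hd⟩ := normaliseG h0 hW hc hn
  have h3 : n ≤ 3 * h := by
    by_contra hcon
    exact odd_falseG hc' hu t1 t2 t3 hd (by omega)
  rcases Int.emod_two_eq_zero_or_one n with he | he
  · exact (even_falseG hW' hc' hu t1 t2 t3 hd hn he).elim
  · refine ⟨he, h3, fun hh => ?_⟩
    by_contra hcon
    exact five_false hh hc' hu t1 t2 (by omega) hd (by omega) h3

end Pool.Agent.H208.SS
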