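import Mathlib
import Pool.Agent.H208.SS.Num

set_option autoImplicit false

namespace Pool.Agent.H208.SS

/-- the even case is impossible -/
theorem even_false {h n W t : ℤ} (hh : h % 2 = 1) (hW : W % 2 = 1) (hc : Cover h n W)
    (hu : IsCoprime W (2 * n)) (ht0 : 1 ≤ t) (hth : t ≤ h) (ht1 : t % 2 = 1)
    (hA : 2 * n ∣ h * W + t) (hn : 2 * h + 2 ≤ n) (hne : n % 2 = 0) : False := by
  -- the representation of `n / 2`
  obtain ⟨s, hs1, hs2, hs3, hB⟩ : ∃ s, -h ≤ s ∧ s ≤ h ∧ s % 2 = 1 ∧ 2 * n ∣ s * W + h - n := by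
    obtain ⟨x, h1, h2, h3, h4 | h4⟩ := hc.valB (by omega) hA n hne (by omega) (by omega)
    · exact ⟨x, h1, h2, h3, h4⟩
    · refine ⟨-x, by omega, by omega, by omega, ?_⟩
      obtain ⟨k, hk⟩ := h4
      exact ⟨-k - 1, by linear_combination -hk⟩
  -- `t < h`
  have htlt : t < h := by
    by_contra hcon
    have e : t = h := by omega
    subst e
    have h1 : 2 * n ∣ (s - t) * W - n := by
      obtain ⟨k, hk⟩ := hB
      obtain ⟨l, hl⟩ := hA
      exact ⟨k - l, by linear_combination hk - hl⟩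
    have h2 := cancel_n hu hW h1
    have := dz h2 (by omega) (by omega)
    omega
  rcases lt_or_ge 0 s with hs | hs
  · -- positive `s`
    obtain ⟨x, h1, h2, h3, h4 | h4⟩ := hc.valB (by omega) hA (n + h - t) (by omega) (by omega)
      (by omega)
    · have h5 : 2 * n ∣ (x - h) * W - n := by
        obtain ⟨k, hk⟩ := h4
        obtain ⟨l, hl⟩ := hA
        exact ⟨k - l, by linear_combination hk - hl⟩
      have h6 := cancel_n hu hW h5
      have := dz h6 (by omega) (by omega)
      omega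
    · have h5 : 2 * n ∣ (x + 2 * s - h) * W - n := by
        obtain ⟨k, hk⟩ := h4
        obtain ⟨l, hl⟩ := hA
        obtain ⟨m, hm⟩ := hB
        exact ⟨k - l + 2 * m + 1, by linear_combination hk - hl + 2 * hm⟩
      have h6 := cancel_n hu hW h5
      have := dz h6 (by omega) (by omega)
      omega
  · -- negative `s`: the walk
    have hsn : s < 0 := by omega
    -- small multiples of `W` are small
    have claim : ∀ j : ℤ, j % 2 = 0 → -(n - h + s) ≤ j → j ≤ n - h + s →
        ∃ r, -(h + t) ≤ r ∧ r ≤ h + t ∧ 2 * n ∣ j * W - r := by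
      intro j hj0 hj1 hj2
      have hend : 2 * n ∣ (n - h + s) * W - (t - h) := by
        obtain ⟨w, hw⟩ : ∃ w, W = 2 * w + 1 := ⟨W / 2, by omega⟩
        obtain ⟨l, hl⟩ := hA
        obtain ⟨m, hm⟩ := hB
        exact ⟨m - l + w + 1, by linear_combination hm - hl + n * hw⟩
      by_cases e1 : j = n - h + s
      · subst e1
        exact ⟨t - h, by omega, by omega, hend⟩
      by_cases e2 : j = -(n - h + s)
      · subst e2
        refine ⟨h - t, by omega, by omega, ?_⟩
        obtain ⟨k, hk⟩ := hend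
        exact ⟨-k, by linear_combination -hk⟩
      have hpar : (j * W) % 2 = 0 := by rw [Int.mul_emod, hj0]; simp
      rcases hc.valA (by omega) hA (j * W) hpar with h1 | ⟨x, h1, h2, -, h4 | h4⟩
      · exact h1
      · exfalso
        have h5 : 2 * n ∣ (x - s - j) * W - n := by
          obtain ⟨k, hk⟩ := h4
          obtain ⟨m, hm⟩ := hB
          exact ⟨k - m - 1, by linear_combination hk - hm⟩
        have h6 := cancel_n hu hW h5
        have := dz h6 (by omega) (by omega)
        omega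
      · exfalso
        have h5 : 2 * n ∣ (x + s - j) * W - n := by
          obtain ⟨k, hk⟩ := h4
          obtain ⟨m, hm⟩ := hB
          exact ⟨k + m, by linear_combination hk + hm⟩
        have h6 := cancel_n hu hW h5
        have := dz h6 (by omega) (by omega)
        omega
    have walk : ∀ m : ℕ, ∃ j p : ℤ, j % 2 = 0 ∧ -(n - h + s) ≤ j ∧ j ≤ n - h + s ∧
        (m : ℤ) ≤ p ∧ p ≤ h + t ∧ 2 * n ∣ j * W - p := by
      intro m
      induction m with
      | zero =>
        exact ⟨0, 0, rfl, by omega, by omega, by simp, by omega, by simp⟩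
      | succ m ih =>
        obtain ⟨j, p, hj0, hj1, hj2, hp1, hp2, hd⟩ := ih
        have hm0 : (0 : ℤ) ≤ m := Int.natCast_nonneg m
        obtain ⟨w, hw⟩ : ∃ w, W = 2 * w + 1 := ⟨W / 2, by omega⟩
        obtain ⟨k, hk⟩ := hd
        obtain ⟨l, hl⟩ := hA
        obtain ⟨q, hq⟩ := hB
        -- the next position
        obtain ⟨j', p', hj0', hj1', hj2', hp1', hp2', hd'⟩ : ∃ j' p' : ℤ, j' % 2 = 0 ∧
            -(n - h + s) ≤ j' ∧ j' ≤ n - h + s ∧ p + 1 ≤ p' ∧ p' ≤ n ∧ 2 * n ∣ j' * W - p' := by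
          rcases le_or_gt 0 j with hj | hj
          · refine ⟨j - (n - h + s), p + (h - t), by omega, by omega, by omega, by omega,
              by omega, ?_⟩
            exact ⟨k - (q - l + w + 1), by linear_combination hk - (hq - hl + n * hw)⟩
          · refine ⟨j + (h + s), p + (n - h - t), by omega, by omega, by omega, by omega,
              by omega, ?_⟩
            exact ⟨k + q + l, by linear_combination hk + hq + hl⟩
        obtain ⟨r, hr1, hr2, hr3⟩ := claim j' hj0' hj1' hj2'
        have hpr : 2 * n ∣ p' - r := by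
          obtain ⟨a, ha⟩ := hr3
          obtain ⟨b, hb⟩ := hd'
          exact ⟨a - b, by linear_combination ha - hb⟩
        have e := dz hpr (by omega) (by omega)
        exact ⟨j', p', hj0', hj1', hj2', by push_cast; omega, by omega, hd'⟩
    obtain ⟨j, p, -, -, -, h1, h2, -⟩ := walk (h + t + 1).toNat
    omega

/-- the odd case with `n > 3 h` is impossible -/
theorem odd_false {h n W t : ℤ} (hh : h % 2 = 1) (hc : Cover h n W)
    (hu : IsCoprime W (2 * n)) (ht0 : 1 ≤ t) (hth : t ≤ h) (ht1 : t % 2 = 1)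
    (hA : 2 * n ∣ h * W + t) (hn : 3 * h + 1 ≤ n) : False := by
  obtain ⟨l, hl⟩ := hA
  have hA : 2 * n ∣ h * W + t := ⟨l, hl⟩
  -- the value `3 t + h`
  obtain ⟨x1, a1, a2, a3, k1, hk1⟩ : ∃ x1, -h ≤ x1 ∧ x1 ≤ h ∧ x1 % 2 = 1 ∧
      2 * n ∣ x1 * W - h - (3 * t + h) := by
    obtain ⟨x, h1, h2, h3, h4 | h4⟩ := hc.valB (by omega) hA (3 * t + h) (by omega) (by omega)
      (by omega)
    · exfalso
      have h5 : 2 * n ∣ (x + 3 * h) * W := by
        obtain ⟨k, hk⟩ := h4
        exact ⟨k + 3 * l, by linear_combination hk + 3 * hl⟩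
      have h6 := cancel hu h5
      have := dz h6 (by omega) (by omega)
      omega
    · exact ⟨x, h1, h2, h3, h4⟩
  -- the endpoints are excluded
  have a4 : x1 ≠ h := by
    intro e
    rw [e] at hk1
    have h5 : 2 * n ∣ 4 * t + 2 * h := ⟨l - k1, by linear_combination hl - hk1⟩
    have := dz h5 (by omega) (by omega)
    omega
  have a5 : x1 ≠ -h := by
    intro e
    rw [e] at hk1
    have h5 : 2 * n ∣ 2 * t + 2 * h := ⟨-l - k1, by linear_combination -hl - hk1⟩
    have := dz h5 (by omega) (by omega)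
    omega
  -- the value `t + 3 h`
  obtain ⟨x2, b1, b2, hb⟩ : ∃ x2, -h ≤ x2 ∧ x2 ≤ h ∧ 2 * x1 + 5 * h - x2 = 2 * n := by
    obtain ⟨x, h1, h2, h3, h4 | h4⟩ := hc.valB (by omega) hA (t + 3 * h) (by omega) (by omega)
      (by omega)
    · exfalso
      have h5 : 2 * n ∣ (x - x1 - 2 * h) * W := by
        obtain ⟨k, hk⟩ := h4
        exact ⟨k - k1 - 2 * l, by linear_combination hk - hk1 - 2 * hl⟩
      have h6 := cancel hu h5
      have := dz h6 (by omega) (by omega)
      omega
    · refine ⟨x, h1, h2, ?_⟩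
      have h5 : 2 * n ∣ (2 * x1 + 5 * h - x) * W := by
        obtain ⟨k, hk⟩ := h4
        exact ⟨2 * k1 - k + 5 * l, by linear_combination 2 * hk1 - hk + 5 * hl⟩
      have h6 := cancel hu h5
      have := dz (m := 2 * n) (c := 2 * x1 + 5 * h - x - 2 * n) (by
        obtain ⟨k, hk⟩ := h6
        exact ⟨k - 1, by linear_combination hk⟩) (by omega) (by omega)
      omega
  rcases le_or_gt (h + 1) (2 * t) with ht2 | ht2
  · -- the value `5 t - h`
    obtain ⟨x, h1, h2, h3, h4 | h4⟩ := hc.valB (by omega) hA (5 * t - h) (by omega) (by omega)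
      (by omega)
    · have h5 : 2 * n ∣ (x + x1 + 8 * h) * W := by
        obtain ⟨k, hk⟩ := h4
        exact ⟨k + k1 + 8 * l, by linear_combination hk + hk1 + 8 * hl⟩
      have h6 := cancel hu h5
      have := dz (m := 2 * n) (c := x + x1 + 8 * h - 2 * n) (by
        obtain ⟨k, hk⟩ := h6
        exact ⟨k - 1, by linear_combination hk⟩) (by omega) (by omega)
      omega
    · have h5 : 2 * n ∣ (x + 5 * h) * W := by
        obtain ⟨k, hk⟩ := h4
        exact ⟨k + 5 * l, by linear_combination hk + 5 * hl⟩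
      have h6 := cancel hu h5
      have := dz h6 (by omega) (by omega)
      omega
  · -- the value `5 t + h`
    obtain ⟨x, h1, h2, h3, h4 | h4⟩ := hc.valB (by omega) hA (5 * t + h) (by omega) (by omega)
      (by omega)
    · have h5 : 2 * n ∣ (x + 5 * h) * W := by
        obtain ⟨k, hk⟩ := h4
        exact ⟨k + 5 * l, by linear_combination hk + 5 * hl⟩
      have h6 := cancel hu h5
      have := dz h6 (by omega) (by omega)
      omega
    · have h5 : 2 * n ∣ (x - x1 + 2 * h) * W := by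
        obtain ⟨k, hk⟩ := h4
        exact ⟨k - k1 + 2 * l, by linear_combination hk - hk1 + 2 * hl⟩
      have h6 := cancel hu h5
      have := dz h6 (by omega) (by omega)
      omega

/-- normalisation -/
theorem normalise {h n W : ℤ} (hh : h % 2 = 1) (h0 : 1 ≤ h) (hW : W % 2 = 1)
    (hc : Cover h n W) (hn : 2 * h + 2 ≤ n) :
    ∃ W' t : ℤ, Cover h n W' ∧ W' % 2 = 1 ∧ IsCoprime W' (2 * n) ∧ 1 ≤ t ∧ t ≤ h ∧ t % 2 = 1 ∧
      2 * n ∣ h * W' + t := by
  -- from a vertical representation with any sign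
  have step : ∀ V t : ℤ, Cover h n V → V % 2 = 1 → IsCoprime V (2 * n) → -h ≤ t → t ≤ h →
      t % 2 = 1 → 2 * n ∣ h * V + t →
      ∃ W' t : ℤ, Cover h n W' ∧ W' % 2 = 1 ∧ IsCoprime W' (2 * n) ∧ 1 ≤ t ∧ t ≤ h ∧
        t % 2 = 1 ∧ 2 * n ∣ h * W' + t := by
    intro V t hcV hV huV t1 t2 t3 hd
    rcases le_or_gt 1 t with h1 | h1
    · exact ⟨V, t, hcV, hV, huV, h1, t2, t3, hd⟩
    · refine ⟨-V, -t, hcV.neg, by omega, huV.neg_left, by omega, by omega, by omega, ?_⟩
      obtain ⟨k, hk⟩ := hd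
      exact ⟨-k, by linear_combination -hk⟩
  -- the unit property for a vertical representation with `t ≥ 1`
  have unitV : ∀ V t : ℤ, Cover h n V → V % 2 = 1 → 1 ≤ t → t ≤ h → t % 2 = 1 →
      2 * n ∣ h * V + t → IsCoprime V (2 * n) := by
    intro V t hcV hV t1 t2 t3 hd
    by_cases hb : h + t + 2 < n
    · exact unitA hh hV (by omega) t3 hcV hd hb (by omega)
    · have e : t = h := by omega
      subst e
      exact unitC hh hd (by omega)
  rcases hc.val 0 rfl with ⟨y, h1, h2, h3, h4⟩ | ⟨x, h1, h2, h3, h4⟩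
  · -- vertical
    obtain ⟨t, t1, t2, t3, hd⟩ : ∃ t, -h ≤ t ∧ t ≤ h ∧ t % 2 = 1 ∧ 2 * n ∣ h * W + t := by
      rcases h4 with h4 | h4
      · exact ⟨y, h1, h2, h3, by simpa using h4⟩
      · refine ⟨-y, by omega, by omega, by omega, ?_⟩
        obtain ⟨k, hk⟩ := h4
        exact ⟨-k, by linear_combination -hk⟩
    have hu : IsCoprime W (2 * n) := by
      rcases le_or_gt 1 t with h5 | h5
      · exact unitV W t hc hW h5 t2 t3 hd
      · have h6 : IsCoprime (-W) (2 * n) := by
          apply unitV (-W) (-t) hc.neg (by omega) (by omega) (by omega) (by omega)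
          obtain ⟨k, hk⟩ := hd
          exact ⟨-k, by linear_combination -hk⟩
        simpa using h6.neg_left
    exact step W t hc hW hu t1 t2 t3 hd
  · -- horizontal
    obtain ⟨t, t1, t2, t3, hd⟩ : ∃ t, -h ≤ t ∧ t ≤ h ∧ t % 2 = 1 ∧ 2 * n ∣ t * W + h := by
      rcases h4 with h4 | h4
      · exact ⟨x, h1, h2, h3, by simpa using h4⟩
      · refine ⟨-x, by omega, by omega, by omega, ?_⟩
        obtain ⟨k, hk⟩ := h4
        exact ⟨-k, by linear_combination -hk⟩
    have hu : IsCoprime W (2 * n) := unitB hh h0 hW hc hd hn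
    obtain ⟨E, F, hEF⟩ := hu
    have hE : 2 * n ∣ E * W - 1 := ⟨-F, by linear_combination hEF⟩
    have hEodd : E % 2 = 1 := by
      obtain ⟨k, hk⟩ := hE
      rcases Int.emod_two_eq_zero_or_one E with h0' | h0'
      · exfalso
        obtain ⟨e, he⟩ : ∃ e, E = 2 * e := ⟨E / 2, by omega⟩
        have : 2 * (e * W - n * k) = 1 := by
          rw [he] at hk
          linear_combination hk
        omega
      · exact h0'
    have hcE := hc.inv hE
    have huE : IsCoprime E (2 * n) := ⟨W, F, by linear_combination hEF⟩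
    refine step E t hcE hEodd huE t1 t2 t3 ?_
    obtain ⟨k, hk⟩ := hd
    obtain ⟨l, hl⟩ := hE
    exact ⟨E * k - t * l, by linear_combination E * hk - t * hl⟩

/-- the bound -/
theorem cover_bound {h n W : ℤ} (hh : h % 2 = 1) (h0 : 1 ≤ h) (hW : W % 2 = 1)
    (hc : Cover h n W) (hn : 2 * h + 2 ≤ n) : n % 2 = 1 ∧ n ≤ 3 * h := by
  obtain ⟨W', t, hc', hW', hu, t1, t2, t3, hd⟩ := normalise hh h0 hW hc hn
  rcases Int.emod_two_eq_zero_or_one n with he | he
  · exact (even_false hh hW' hc' hu t1 t2 t3 hd hn he).elim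
  · refine ⟨he, ?_⟩
    by_contra hcon
    exact odd_false hh hc' hu t1 t2 t3 hd (by omega)

end Pool.Agent.H208.SS
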