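import Mathlib
import Pool.Agent.H208.SS.Num2

set_option autoImplicit false

namespace Pool.Agent.H208.SS

variable {G : Type} [AddCommGroup G]

/-- every element is `l a + m b` with `|l| + |m| = h` -/
def Cov2 (h : ℕ) (a b : G) : Prop :=
  ∀ g : G, ∃ l m : ℤ, l.natAbs + m.natAbs = h ∧ g = l • a + m • b

theorem Cov2.neg {h : ℕ} {a b : G} (hc : Cov2 h a b) : Cov2 h a (-b) := by
  intro g
  obtain ⟨l, m, h1, h2⟩ := hc g
  exact ⟨l, -m, by omega, by rw [h2]; simp⟩

theorem exists_avoid (K : AddSubgroup G) (hK : K ≠ ⊤) (c : G) :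
    ∃ g, g - c ∉ K ∧ g + c ∉ K := by
  by_cases hc : c ∈ K
  · obtain ⟨x, hx⟩ : ∃ x, x ∉ K := by
      by_contra hcon
      push Not at hcon
      exact hK ((AddSubgroup.eq_top_iff' K).2 hcon)
    exact ⟨x, fun h => hx (by simpa using K.add_mem h hc),
      fun h => hx (by simpa using K.sub_mem h hc)⟩
  · exact ⟨0, by simpa using hc, by simpa using hc⟩

/-- one of `a - b`, `a + b` generates -/
theorem generates {h : ℕ} {a b : G} (hc : Cov2 h a b) :
    AddSubgroup.zmultiples (a - b) = ⊤ ∨ AddSubgroup.zmultiples (a + b) = ⊤ := by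
  by_contra hcon
  push Not at hcon
  obtain ⟨hv, hu⟩ := hcon
  have mv : ∀ k : ℤ, k • (a - b) ∈ AddSubgroup.zmultiples (a - b) :=
    fun k => AddSubgroup.zsmul_mem_zmultiples _ k
  have mu : ∀ k : ℤ, k • (a + b) ∈ AddSubgroup.zmultiples (a + b) :=
    fun k => AddSubgroup.zsmul_mem_zmultiples _ k
  have key : ∀ g : G, g - (h : ℤ) • a ∈ AddSubgroup.zmultiples (a - b) ∨
      g - (h : ℤ) • a ∈ AddSubgroup.zmultiples (a + b) ∨
      g + (h : ℤ) • a ∈ AddSubgroup.zmultiples (a + b) ∨
      g + (h : ℤ) • a ∈ AddSubgroup.zmultiples (a - b) := by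
    intro g
    obtain ⟨l, m, h1, h2⟩ := hc g
    rcases le_total 0 l with hl | hl <;> rcases le_total 0 m with hm | hm
    · left
      have e : (h : ℤ) = l + m := by omega
      have e2 : g - (h : ℤ) • a = (-m) • (a - b) := by rw [h2, e]; module
      rw [e2]; exact mv _
    · right; left
      have e : (h : ℤ) = l - m := by omega
      have e2 : g - (h : ℤ) • a = m • (a + b) := by rw [h2, e]; module
      rw [e2]; exact mu _
    · right; right; left
      have e : (h : ℤ) = -l + m := by omega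
      have e2 : g + (h : ℤ) • a = m • (a + b) := by rw [h2, e]; module
      rw [e2]; exact mu _
    · right; right; right
      have e : (h : ℤ) = -l - m := by omega
      have e2 : g + (h : ℤ) • a = (-m) • (a - b) := by rw [h2, e]; module
      rw [e2]; exact mv _
  by_cases hs : AddSubgroup.zmultiples (a + b) ⊔ AddSubgroup.zmultiples (a - b) = ⊤
  · obtain ⟨g1, p1, p2⟩ := exists_avoid _ hu ((h : ℤ) • a)
    obtain ⟨g2, q1, q2⟩ := exists_avoid _ hv ((h : ℤ) • a)
    have hmem : g1 - g2 ∈ AddSubgroup.zmultiples (a + b) ⊔ AddSubgroup.zmultiples (a - b) := by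
      rw [hs]; trivial
    obtain ⟨k1, hk1, k2, hk2, hk⟩ := AddSubgroup.mem_sup.1 hmem
    have e1 : g1 = (g1 - k1) + k1 := by abel
    have e2 : g1 - k1 = g2 + k2 := by
      have : g1 = k1 + k2 + g2 := by rw [hk]; abel
      rw [this]; abel
    rcases key (g1 - k1) with h1 | h1 | h1 | h1
    · apply q1
      have : g2 - (h : ℤ) • a = (g1 - k1 - (h : ℤ) • a) - k2 := by rw [e2]; abel
      rw [this]
      exact AddSubgroup.sub_mem _ h1 hk2
    · apply p1
      have : g1 - (h : ℤ) • a = (g1 - k1 - (h : ℤ) • a) + k1 := by abel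
      rw [this]
      exact AddSubgroup.add_mem _ h1 hk1
    · apply p2
      have : g1 + (h : ℤ) • a = (g1 - k1 + (h : ℤ) • a) + k1 := by abel
      rw [this]
      exact AddSubgroup.add_mem _ h1 hk1
    · apply q2
      have : g2 + (h : ℤ) • a = (g1 - k1 + (h : ℤ) • a) - k2 := by rw [e2]; abel
      rw [this]
      exact AddSubgroup.sub_mem _ h1 hk2
  · obtain ⟨g, p1, p2⟩ := exists_avoid _ hs ((h : ℤ) • a)
    rcases key g with h1 | h1 | h1 | h1
    · exact p1 ((le_sup_right : _ ≤ AddSubgroup.zmultiples (a + b) ⊔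
        AddSubgroup.zmultiples (a - b)) h1)
    · exact p1 ((le_sup_left : _ ≤ AddSubgroup.zmultiples (a + b) ⊔
        AddSubgroup.zmultiples (a - b)) h1)
    · exact p2 ((le_sup_left : _ ≤ AddSubgroup.zmultiples (a + b) ⊔
        AddSubgroup.zmultiples (a - b)) h1)
    · exact p2 ((le_sup_right : _ ≤ AddSubgroup.zmultiples (a + b) ⊔
        AddSubgroup.zmultiples (a - b)) h1)

/-- the arithmetic form of the covering property -/
theorem cover_of [Finite G] {h : ℕ} (hh : h % 2 = 1) {a b : G}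
    (hv : AddSubgroup.zmultiples (a - b) = ⊤) (hc : Cov2 h a b) :
    ∃ W : ℤ, W % 2 = 1 ∧ Cover h (Nat.card G) W := by
  have hmem : ∀ x : G, x ∈ AddSubgroup.zmultiples (a - b) := fun x => by rw [hv]; trivial
  have hord : addOrderOf (a - b) = Nat.card G := addOrderOf_eq_card_of_forall_mem_zmultiples hmem
  obtain ⟨A, hA⟩ := AddSubgroup.mem_zmultiples_iff.1 (hmem a)
  refine ⟨2 * A - 1, by omega, ?_⟩
  intro z
  obtain ⟨l, m, h1, h2⟩ := hc (z • (a - b))
  have hb : b = (A - 1) • (a - b) := by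
    rw [sub_smul, hA, one_smul]; abel
  have h3 : (l * A + m * (A - 1) - z) • (a - b) = 0 := by
    have e : (l * A + m * (A - 1) - z) • (a - b) =
        l • (A • (a - b)) + m • ((A - 1) • (a - b)) - z • (a - b) := by module
    rw [e, ← hb, hA, h2]
    abel
  have h4 : ((addOrderOf (a - b) : ℕ) : ℤ) ∣ l * A + m * (A - 1) - z :=
    addOrderOf_dvd_iff_zsmul_eq_zero.2 h3
  rw [hord] at h4
  obtain ⟨k, hk⟩ := h4
  refine ⟨l + m, l - m, by omega, by omega, by omega, by omega, by omega, by omega, by omega, k, ?_⟩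
  linear_combination 2 * hk

theorem cyclic_of_cov {h : ℕ} {a b : G} (hc : Cov2 h a b) : IsAddCyclic G := by
  rcases generates hc with hv | hu
  · exact ⟨⟨a - b, (AddSubgroup.eq_top_iff' _).1 hv⟩⟩
  · exact ⟨⟨a + b, (AddSubgroup.eq_top_iff' _).1 hu⟩⟩

theorem bound_of_cov [Finite G] {h : ℕ} (hh : h % 2 = 1) {a b : G} (hc : Cov2 h a b) :
    Nat.card G ≤ 2 * h + 1 ∨ (Odd (Nat.card G) ∧ Nat.card G ≤ 3 * h) := by
  have main : ∀ b' : G, AddSubgroup.zmultiples (a - b') = ⊤ → Cov2 h a b' →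
      Nat.card G ≤ 2 * h + 1 ∨ (Odd (Nat.card G) ∧ Nat.card G ≤ 3 * h) := by
    intro b' hv hc'
    obtain ⟨W, hW, hcov⟩ := cover_of hh hv hc'
    by_cases hn : Nat.card G ≤ 2 * h + 1
    · exact Or.inl hn
    · right
      have := cover_bound (h := h) (n := Nat.card G) (by omega) (by omega) hW hcov (by omega)
      exact ⟨by rw [Nat.odd_iff]; omega, by omega⟩
  rcases generates hc with hv | hu
  · exact main b hv hc
  · exact main (-b) (by rwa [sub_neg_eq_add]) hc.neg

end Pool.Agent.H208.SS
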