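import Mathlib
import Pool.Agent.H208.SS.Grp

set_option autoImplicit false

/-!
# Exact signed spanning number equal to two

`signedSumset h A` is the `h`-fold signed sumset `h_± A` and `phi G h` is `φ_±(G, h)`.
-/

namespace Pool.Agent.H208.SS

/-- The `h`-fold signed sumset `h_± A` of a finite set `A` in an abelian group: all sums
`∑ c_a a` with integers `c_a` (`a ∈ A`) whose absolute values add up to `h`. -/
def signedSumset {G : Type} [AddCommGroup G] (h : ℕ) (A : Finset G) : Set G :=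
  {g | ∃ c : G → ℤ, ∑ a ∈ A, (c a).natAbs = h ∧ g = ∑ a ∈ A, c a • a}

/-- `φ_±(G, h)`: the least size of a set `A` with `h_± A = G`. -/
noncomputable def phi (G : Type) [AddCommGroup G] (h : ℕ) : ℕ :=
  sInf {k | ∃ A : Finset G, A.card = k ∧ signedSumset h A = Set.univ}

variable {G : Type} [AddCommGroup G]

open Classical in
theorem sumset_pair {h : ℕ} {a b : G} (hab : a ≠ b) :
    signedSumset h ({a, b} : Finset G) = Set.univ ↔ Cov2 h a b := by
  constructor
  · intro hs g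
    have hg : g ∈ signedSumset h ({a, b} : Finset G) := by rw [hs]; trivial
    obtain ⟨c, h1, h2⟩ := hg
    rw [Finset.sum_pair hab] at h1 h2
    exact ⟨c a, c b, h1, h2⟩
  · intro hc
    rw [Set.eq_univ_iff_forall]
    intro g
    obtain ⟨l, m, h1, h2⟩ := hc g
    refine ⟨fun x => if x = a then l else m, ?_, ?_⟩
    · rw [Finset.sum_pair hab]
      simp [Ne.symm hab, h1]
    · rw [Finset.sum_pair hab]
      simp [Ne.symm hab, h2]

theorem two_le_card [Nontrivial G] {h : ℕ} (hh : 1 ≤ h) (A : Finset G)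
    (hA : signedSumset h A = Set.univ) : 2 ≤ A.card := by
  have hall : ∀ g : G, ∃ c : G → ℤ, ∑ a ∈ A, (c a).natAbs = h ∧ g = ∑ a ∈ A, c a • a := by
    intro g
    have : g ∈ signedSumset h A := by rw [hA]; trivial
    exact this
  by_contra hcon
  have hcard : A.card = 0 ∨ A.card = 1 := by omega
  rcases hcard with h0 | h1
  · rw [Finset.card_eq_zero] at h0
    subst h0
    obtain ⟨c, h2, -⟩ := hall 0
    simp at h2
    omega
  · obtain ⟨a, rfl⟩ := Finset.card_eq_one.1 h1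
    simp only [Finset.sum_singleton] at hall
    have hz : (h : ℤ) • a = 0 := by
      obtain ⟨c, h2, h3⟩ := hall 0
      rcases Int.natAbs_eq (c a) with h4 | h4
      · rw [h2] at h4
        rw [← h4]; exact h3.symm
      · rw [h2] at h4
        rw [h4, neg_smul] at h3
        exact neg_eq_zero.1 h3.symm
    obtain ⟨x, hx⟩ := exists_ne (0 : G)
    apply hx
    obtain ⟨c, h2, h3⟩ := hall x
    rcases Int.natAbs_eq (c a) with h4 | h4
    · rw [h2] at h4
      rw [h3, h4, hz]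
    · rw [h2] at h4
      rw [h3, h4, neg_smul, hz, neg_zero]

theorem phi_eq_two_iff [Nontrivial G] {h : ℕ} (hh : 1 ≤ h) :
    phi G h = 2 ↔ ∃ a b : G, a ≠ b ∧ Cov2 h a b := by
  classical
  constructor
  · intro hphi
    have hne : {k | ∃ A : Finset G, A.card = k ∧ signedSumset h A = Set.univ}.Nonempty := by
      by_contra hcon
      rw [Set.not_nonempty_iff_eq_empty] at hcon
      unfold phi at hphi
      rw [hcon] at hphi
      simp at hphi
    have hmem := Nat.sInf_mem hne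
    change phi G h ∈ _ at hmem
    rw [hphi] at hmem
    obtain ⟨A, hA, hs⟩ := hmem
    obtain ⟨a, b, hab, rfl⟩ := Finset.card_eq_two.1 hA
    exact ⟨a, b, hab, (sumset_pair hab).1 hs⟩
  · rintro ⟨a, b, hab, hc⟩
    have h2 : 2 ∈ {k | ∃ A : Finset G, A.card = k ∧ signedSumset h A = Set.univ} :=
      ⟨{a, b}, Finset.card_pair hab, (sumset_pair hab).2 hc⟩
    apply le_antisymm (Nat.sInf_le h2)
    apply le_csInf ⟨2, h2⟩
    rintro k ⟨A, rfl, hs⟩
    exact two_le_card hh A hs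

/-- if `φ_±(G, h) = 2` then `G` is nontrivial -/
theorem nontrivial_of_phi {h : ℕ} (hphi : phi G h = 2) : Nontrivial G := by
  classical
  by_contra hcon
  rw [not_nontrivial_iff_subsingleton] at hcon
  have hne : {k | ∃ A : Finset G, A.card = k ∧ signedSumset h A = Set.univ}.Nonempty := by
    by_contra hcon
    rw [Set.not_nonempty_iff_eq_empty] at hcon
    unfold phi at hphi
    rw [hcon] at hphi
    simp at hphi
  have hmem := Nat.sInf_mem hne
  change phi G h ∈ _ at hmem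
  rw [hphi] at hmem
  obtain ⟨A, hA, -⟩ := hmem
  obtain ⟨a, b, hab, -⟩ := Finset.card_eq_two.1 hA
  exact hab (Subsingleton.elim _ _)

/-- the pair `{0, g}` -/
theorem cov_zero {h n : ℕ} {g : G} (hg : ∀ x : G, ∃ k : ℤ, x = k • g)
    (hn : ∀ k : ℤ, (n : ℤ) ∣ k → k • g = 0) (hn0 : 1 ≤ n) (hle : n ≤ 2 * h + 1) :
    Cov2 h 0 g := by
  intro x
  obtain ⟨k, rfl⟩ := hg x
  obtain ⟨m, hm1, hm2⟩ : ∃ m : ℤ, m.natAbs ≤ h ∧ (n : ℤ) ∣ k - m := by
    by_cases hr : k % n ≤ h
    · refine ⟨k % n, ?_, ?_⟩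
      · have := Int.emod_nonneg k (b := (n : ℤ)) (by omega)
        omega
      · exact Int.dvd_self_sub_emod
    · refine ⟨k % n - n, ?_, ?_⟩
      · have h1 := Int.emod_nonneg k (b := (n : ℤ)) (by omega)
        have h2 := Int.emod_lt_of_pos k (b := (n : ℤ)) (by omega)
        omega
      · have h1 : (n : ℤ) ∣ k - k % n := Int.dvd_self_sub_emod
        obtain ⟨c, hc⟩ := h1
        exact ⟨c + 1, by linear_combination hc⟩
  refine ⟨(h : ℤ) - m.natAbs, m, by omega, ?_⟩
  have h3 := hn _ hm2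
  rw [sub_smul, sub_eq_zero] at h3
  rw [h3, smul_zero, zero_add]

/-- the pair `{g, 3 g}` -/
theorem cov_three {h n : ℕ} {g : G} (hg : ∀ x : G, ∃ k : ℤ, x = k • g)
    (hn : ∀ k : ℤ, (n : ℤ) ∣ k → k • g = 0) (hodd : n % 2 = 1) (hh : h % 2 = 1)
    (hle : n ≤ 3 * h) : Cov2 h g ((3 : ℤ) • g) := by
  intro x
  obtain ⟨k, rfl⟩ := hg x
  obtain ⟨m, hm1, hm2, hm3, hm4⟩ : ∃ m : ℤ, -(3 * h : ℤ) ≤ m ∧ m ≤ 3 * h ∧ m % 2 = 1 ∧
      (n : ℤ) ∣ k - m := by
    have h1 := Int.emod_nonneg k (b := (n : ℤ)) (by omega)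
    have h2 := Int.emod_lt_of_pos k (b := (n : ℤ)) (by omega)
    have h3 : (n : ℤ) ∣ k - k % n := Int.dvd_self_sub_emod
    obtain ⟨c, hc⟩ := h3
    obtain ⟨r, hr⟩ : ∃ r, r = k % (n : ℤ) := ⟨_, rfl⟩
    rw [← hr] at h1 h2 hc
    by_cases hp : r % 2 = 1
    · exact ⟨r, by omega, by omega, hp, c, hc⟩
    · exact ⟨r - n, by omega, by omega, by omega, c + 1, by linear_combination hc⟩
  have h3 := hn _ hm4
  rw [sub_smul, sub_eq_zero] at h3
  have hfin : ∃ l j : ℤ, l.natAbs + j.natAbs = h ∧ l + 3 * j = m := by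
    by_cases c1 : (h : ℤ) ≤ m
    · exact ⟨h - (m - h) / 2, (m - h) / 2, by omega, by omega⟩
    by_cases c2 : m ≤ -(h : ℤ)
    · exact ⟨-(h - (-h - m) / 2), -((-h - m) / 2), by omega, by omega⟩
    by_cases c3 : (h - m) % 4 = 0
    · exact ⟨h - (h - m) / 4, -((h - m) / 4), by omega, by omega⟩
    · have c4 : (m + h) % 4 = 0 := by omega
      exact ⟨-(h - (m + h) / 4), (m + h) / 4, by omega, by omega⟩
  obtain ⟨l, j, h4, h5⟩ := hfin
  refine ⟨l, j, h4, ?_⟩
  rw [h3, ← h5, add_smul, smul_smul, mul_comm]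

theorem classification (h : ℕ) (hh : Odd h) (G : Type) [AddCommGroup G] [Finite G] :
    phi G h = 2 ↔ ∃ n : ℕ, 2 ≤ n ∧ (n ≤ 2 * h + 1 ∨ (Odd n ∧ n ≤ 3 * h)) ∧
      Nonempty (G ≃+ ZMod n) := by
  have hh2 : h % 2 = 1 := Nat.odd_iff.1 hh
  constructor
  · intro hphi
    haveI := nontrivial_of_phi hphi
    obtain ⟨a, b, -, hc⟩ := (phi_eq_two_iff (by omega)).1 hphi
    refine ⟨Nat.card G, Finite.one_lt_card, bound_of_cov hh2 hc, ?_⟩
    exact ⟨(zmodAddCyclicAddEquiv (cyclic_of_cov hc)).symm⟩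
  · rintro ⟨n, hn, hb, ⟨e⟩⟩
    haveI : NeZero n := ⟨by omega⟩
    haveI : Fact (1 < n) := ⟨by omega⟩
    haveI : Nontrivial G := e.toEquiv.nontrivial
    obtain ⟨g, hge⟩ : ∃ g : G, e g = 1 := ⟨e.symm 1, by simp⟩
    have hgk : ∀ k : ℤ, e (k • g) = (k : ZMod n) := by
      intro k
      rw [map_zsmul, hge, zsmul_one]
    have hg : ∀ x : G, ∃ k : ℤ, x = k • g := by
      intro x
      refine ⟨((e x).val : ℤ), e.injective ?_⟩
      rw [hgk]
      simp
    have hn' : ∀ k : ℤ, (n : ℤ) ∣ k ↔ k • g = 0 := by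
      intro k
      rw [← ZMod.intCast_zmod_eq_zero_iff_dvd, ← hgk, map_eq_zero_iff e e.injective]
    rw [phi_eq_two_iff (by omega)]
    by_cases hle : n ≤ 2 * h + 1
    · refine ⟨0, g, ?_, cov_zero hg (fun k => (hn' k).1) (by omega) hle⟩
      intro h0
      rw [← h0, map_zero] at hge
      exact zero_ne_one hge
    · rcases hb with hb | ⟨hb1, hb2⟩
      · exact absurd hb hle
      · refine ⟨g, (3 : ℤ) • g, ?_, cov_three hg (fun k => (hn' k).1) (Nat.odd_iff.1 hb1) hh2 hb2⟩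
        intro h0
        have h1 : (2 : ℤ) • g = 0 := by
          have : (3 : ℤ) • g = (2 : ℤ) • g + g := by module
          rw [this] at h0
          exact (left_eq_add.1 (by rw [add_comm] at h0; exact h0))
        have h2 := (hn' 2).2 h1
        have h3 := Int.le_of_dvd (by norm_num) h2
        have h4 : n = 2 := by omega
        rw [h4] at hb1
        exact absurd hb1 (by decide)

end Pool.Agent.H208.SS
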