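import Mathlib
import Pool.Agent.H208.SS.Gen2
import Pool.Agent.H208.SS.Main

set_option autoImplicit false

namespace Pool.Agent.H208.SS

variable {G : Type} [AddCommGroup G]

/-- the arithmetic form of the covering property -/
theorem cover_ofG [Finite G] {h : ℕ} {a b : G}
    (hv : AddSubgroup.zmultiples (a - b) = ⊤) (hc : Cov2 h a b) :
    ∃ W : ℤ, W % 2 = 1 ∧ CoverG h (Nat.card G) W := by
  have hmem : ∀ x : G, x ∈ AddSubgroup.zmultiples (a - b) := fun x => by rw [hv]; trivial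
  have hord : addOrderOf (a - b) = Nat.card G := addOrderOf_eq_card_of_forall_mem_zmultiples hmem
  obtain ⟨A, hA⟩ := AddSubgroup.mem_zmultiples_iff.1 (hmem a)
  refine ⟨2 * A - 1, by omega, ?_⟩
  intro z
  obtain ⟨l, m, h1, h2⟩ := hc (z • (a - b))
  have hb : b = (A - 1) • (a - b) := by
    rw [sub_smul, hA, one_smul]; abel
  have h3 : (l * A + m * (A - 1) - z) • (a - b) = 0 := by
    have e : (l * A + m * (A - 1) - z) • (a - b) =
        l • (A • (a - b)) + m • ((A - 1) • (a - b)) - z • (a - b) := by module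
    rw [e, ← hb, hA, h2]
    abel
  have h4 : ((addOrderOf (a - b) : ℕ) : ℤ) ∣ l * A + m * (A - 1) - z :=
    addOrderOf_dvd_iff_zsmul_eq_zero.2 h3
  rw [hord] at h4
  obtain ⟨k, hk⟩ := h4
  refine ⟨l + m, l - m, by omega, by omega, by omega, by omega, by omega, by omega, by omega, k, ?_⟩
  linear_combination 2 * hk

theorem bound_of_covG [Finite G] {h : ℕ} (hh : 1 ≤ h) {a b : G} (hc : Cov2 h a b) :
    Nat.card G ≤ 2 * h + 1 ∨ (Odd (Nat.card G) ∧ Nat.card G ≤ 3 * h ∧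
      (h % 2 = 0 → 2 * Nat.card G ≤ 5 * h)) := by
  have main : ∀ b' : G, AddSubgroup.zmultiples (a - b') = ⊤ → Cov2 h a b' →
      Nat.card G ≤ 2 * h + 1 ∨ (Odd (Nat.card G) ∧ Nat.card G ≤ 3 * h ∧
        (h % 2 = 0 → 2 * Nat.card G ≤ 5 * h)) := by
    intro b' hv hc'
    obtain ⟨W, hW, hcov⟩ := cover_ofG hv hc'
    by_cases hn : Nat.card G ≤ 2 * h + 1
    · exact Or.inl hn
    · right
      obtain ⟨h1, h2, h3⟩ := coverG_bound (h := h) (n := Nat.card G) (by omega) hW hcov (by omega)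
      exact ⟨by rw [Nat.odd_iff]; omega, by omega, fun he => by have := h3 (by omega); omega⟩
  rcases generates hc with hv | hu
  · exact main b hv hc
  · exact main (-b) (by rwa [sub_neg_eq_add]) hc.neg

/-- the pair `{5 g, 3 g}` -/
theorem cov_five {h n : ℕ} {g : G} (hg : ∀ x : G, ∃ k : ℤ, x = k • g)
    (hn : ∀ k : ℤ, (n : ℤ) ∣ k → k • g = 0) (hodd : n % 2 = 1) (hh : h % 4 = 2)
    (hle : 2 * n ≤ 5 * h) : Cov2 h ((5 : ℤ) • g) ((3 : ℤ) • g) := by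
  intro x
  obtain ⟨k, rfl⟩ := hg x
  -- an even representative
  obtain ⟨c, hc1, hc2, hc3, q, hq⟩ : ∃ c : ℤ, -(n : ℤ) < c ∧ c < n ∧ c % 2 = 0 ∧
      (n : ℤ) ∣ k - c := by
    have h1 := Int.emod_nonneg k (b := (n : ℤ)) (by omega)
    have h2 := Int.emod_lt_of_pos k (b := (n : ℤ)) (by omega)
    have h3 : (n : ℤ) ∣ k - k % n := Int.dvd_self_sub_emod
    obtain ⟨c, hc⟩ := h3
    obtain ⟨r, hr⟩ : ∃ r, r = k % (n : ℤ) := ⟨_, rfl⟩
    rw [← hr] at h1 h2 hc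
    by_cases hp : r % 2 = 0
    · exact ⟨r, by omega, by omega, hp, c, hc⟩
    · exact ⟨r - n, by omega, by omega, by omega, c + 1, by linear_combination hc⟩
  -- numbers `2 mod 4` up to `3 h`
  have two : ∀ c : ℤ, c % 4 = 2 → -(3 * h : ℤ) ≤ c → c ≤ 3 * h →
      ∃ l j : ℤ, l.natAbs + j.natAbs = h ∧ l * 5 + j * 3 = c := by
    intro c e1 e2 e3
    by_cases e4 : (c - h) % 8 = 0
    · exact ⟨((c - h) / 4 + h) / 2, ((c - h) / 4 - h) / 2, by omega, by omega⟩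
    · exact ⟨((c + h) / 4 - h) / 2, ((c + h) / 4 + h) / 2, by omega, by omega⟩
  have hfin : ∃ c' l j : ℤ, (n : ℤ) ∣ k - c' ∧ l.natAbs + j.natAbs = h ∧ l * 5 + j * 3 = c' := by
    by_cases b1 : c ≤ 0 ∧ 3 * (h : ℤ) ≤ c + 2 * n
    · refine ⟨c + 2 * n, (h + (c + 2 * n - 4 * h)) / 2, (h - (c + 2 * n - 4 * h)) / 2,
        ⟨q - 2, by linear_combination hq⟩, by omega, by omega⟩
    by_cases b2 : 0 < c ∧ c - 2 * n ≤ -(3 * (h : ℤ))
    · refine ⟨c - 2 * n, (-h + (c - 2 * n + 4 * h)) / 2, (-h - (c - 2 * n + 4 * h)) / 2,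
        ⟨q + 2, by linear_combination hq⟩, by omega, by omega⟩
    by_cases b3 : c % 4 = 2
    · obtain ⟨l, j, h1, h2⟩ := two c b3 (by omega) (by omega)
      exact ⟨c, l, j, ⟨q, hq⟩, h1, h2⟩
    · rcases le_or_gt c 0 with b4 | b4
      · obtain ⟨l, j, h1, h2⟩ := two (c + 2 * n) (by omega) (by omega) (by omega)
        exact ⟨c + 2 * n, l, j, ⟨q - 2, by linear_combination hq⟩, h1, h2⟩
      · obtain ⟨l, j, h1, h2⟩ := two (c - 2 * n) (by omega) (by omega) (by omega)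
        exact ⟨c - 2 * n, l, j, ⟨q + 2, by linear_combination hq⟩, h1, h2⟩
  obtain ⟨c', l, j, h1, h2, h3⟩ := hfin
  refine ⟨l, j, h2, ?_⟩
  have h4 := hn _ h1
  rw [sub_smul, sub_eq_zero] at h4
  rw [h4, ← h3, add_smul, smul_smul, smul_smul]

/-- necessary conditions, for every `h` -/
theorem necessary (h : ℕ) (hh : 1 ≤ h) (G : Type) [AddCommGroup G] [Finite G]
    (hphi : phi G h = 2) : ∃ n : ℕ, 2 ≤ n ∧ (n ≤ 2 * h + 1 ∨ (Odd n ∧ n ≤ 3 * h ∧
      (h % 2 = 0 → 2 * n ≤ 5 * h))) ∧ Nonempty (G ≃+ ZMod n) := by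
  have := nontrivial_of_phi hphi
  obtain ⟨a, b, -, hc⟩ := (phi_eq_two_iff hh).1 hphi
  exact ⟨Nat.card G, Finite.one_lt_card, bound_of_covG hh hc,
    ⟨(zmodAddCyclicAddEquiv (cyclic_of_cov hc)).symm⟩⟩

theorem sufficient (h : ℕ) (hh : 1 ≤ h) (G : Type) [AddCommGroup G] (n : ℕ) (hn : 2 ≤ n)
    (e : G ≃+ ZMod n)
    (hb : n ≤ 2 * h + 1 ∨ (Odd n ∧ Odd h ∧ n ≤ 3 * h) ∨ (Odd n ∧ h % 4 = 2 ∧ 2 * n ≤ 5 * h)) :
    phi G h = 2 := by
  have : NeZero n := ⟨by omega⟩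
  have : Fact (1 < n) := ⟨by omega⟩
  have : Nontrivial G := e.toEquiv.nontrivial
  obtain ⟨g, hge⟩ : ∃ g : G, e g = 1 := ⟨e.symm 1, by simp⟩
  have hgk : ∀ k : ℤ, e (k • g) = (k : ZMod n) := by
    intro k
    rw [map_zsmul, hge, zsmul_one]
  have hg : ∀ x : G, ∃ k : ℤ, x = k • g := by
    intro x
    refine ⟨((e x).val : ℤ), e.injective ?_⟩
    rw [hgk]
    simp
  have hn' : ∀ k : ℤ, (n : ℤ) ∣ k ↔ k • g = 0 := by
    intro k
    rw [← ZMod.intCast_zmod_eq_zero_iff_dvd, ← hgk, map_eq_zero_iff e e.injective]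
  -- two different multiples
  have hdiff : ∀ p q : ℤ, p - q = 2 → Odd n → p • g ≠ q • g := by
    intro p q hpq hodd h0
    have h1 : (2 : ℤ) • g = 0 := by
      rw [← hpq, sub_smul, h0, sub_self]
    have h2 := (hn' 2).2 h1
    have h3 := Int.le_of_dvd (by norm_num) h2
    have h4 : n = 2 := by omega
    rw [h4] at hodd
    exact absurd hodd (by decide)
  rw [phi_eq_two_iff hh]
  rcases hb with hle | ⟨hb1, hb2, hb3⟩ | ⟨hb1, hb2, hb3⟩
  · refine ⟨0, g, ?_, cov_zero hg (fun k => (hn' k).1) (by omega) hle⟩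
    intro h0
    rw [← h0, map_zero] at hge
    exact zero_ne_one hge
  · refine ⟨g, (3 : ℤ) • g, ?_, cov_three hg (fun k => (hn' k).1) (Nat.odd_iff.1 hb1)
      (Nat.odd_iff.1 hb2) hb3⟩
    have := hdiff 3 1 (by norm_num) hb1
    rw [one_smul] at this
    exact this.symm
  · exact ⟨(5 : ℤ) • g, (3 : ℤ) • g, hdiff 5 3 (by norm_num) hb1,
      cov_five hg (fun k => (hn' k).1) (Nat.odd_iff.1 hb1) hb2 hb3⟩

theorem classification4 (h : ℕ) (h4 : ¬ 4 ∣ h) (G : Type) [AddCommGroup G] [Finite G] :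
    phi G h = 2 ↔ ∃ n : ℕ, 2 ≤ n ∧
      (n ≤ 2 * h + 1 ∨ (Odd n ∧ Odd h ∧ n ≤ 3 * h) ∨ (Odd n ∧ Even h ∧ 2 * n ≤ 5 * h)) ∧
      Nonempty (G ≃+ ZMod n) := by
  have hh : 1 ≤ h := by
    rcases Nat.eq_zero_or_pos h with h0 | h0
    · exact absurd (h0 ▸ dvd_zero 4) h4
    · exact h0
  constructor
  · intro hphi
    obtain ⟨n, h1, h2, h3⟩ := necessary h hh G hphi
    refine ⟨n, h1, ?_, h3⟩
    rcases h2 with h2 | ⟨h2, h5, h6⟩
    · exact Or.inl h2
    · right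
      rcases Nat.even_or_odd h with he | ho
      · right
        exact ⟨h2, he, h6 (Nat.even_iff.1 he)⟩
      · left
        exact ⟨h2, ho, h5⟩
  · rintro ⟨n, h1, h2, ⟨e⟩⟩
    apply sufficient h hh G n h1 e
    rcases h2 with h2 | h2 | ⟨h2, h5, h6⟩
    · exact Or.inl h2
    · exact Or.inr (Or.inl h2)
    · right; right
      refine ⟨h2, ?_, h6⟩
      rw [Nat.even_iff] at h5
      omega

end Pool.Agent.H208.SS
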